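import Pool.Agent.KS6_92.GN.Cone

/-!
Angle structures with values in `ℝ / 2` (angles are measured in multiples of `π`), and their
existence for every triangulation.
-/

set_option autoImplicit false

namespace Pool.Agent.KS6_92.GN

open Pool.Agent.H297R3.Luo Equiv

/-- An integer weight on the edges of the triangulation. -/
structure IsWeight (T : Triangulation) (y : T.Tet → Fin 4 → Fin 4 → ℤ) : Prop where
  symm : ∀ t i j, y t i j = y t j i
  glue : ∀ t f i j, i ≠ f → j ≠ f → i ≠ j →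
    y (T.adj t f) (T.perm t f i) (T.perm t f j) = y t i j

/-- the pairing of edge weights and angles in a tetrahedron -/
def ev (y : Fin 4 → Fin 4 → ℤ) (θ : Fin 3 → ℝ) : ℝ :=
  ((y 0 1 + y 2 3 : ℤ) : ℝ) * θ 0 + ((y 0 2 + y 1 3 : ℤ) : ℝ) * θ 1 +
    ((y 0 3 + y 1 2 : ℤ) : ℝ) * θ 2

/-- even integers, as real numbers -/
def Ev (x : ℝ) : Prop := ∃ m : ℤ, x = 2 * m

theorem Ev.zero : Ev 0 := ⟨0, by simp⟩

theorem Ev.add {x y : ℝ} (hx : Ev x) (hy : Ev y) : Ev (x + y) := by
  obtain ⟨m, rfl⟩ := hx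
  obtain ⟨n, rfl⟩ := hy
  exact ⟨m + n, by push_cast; ring⟩

theorem Ev.neg {x : ℝ} (hx : Ev x) : Ev (-x) := by
  obtain ⟨m, rfl⟩ := hx
  exact ⟨-m, by push_cast; ring⟩

theorem Ev.sub {x y : ℝ} (hx : Ev x) (hy : Ev y) : Ev (x - y) := by
  rw [sub_eq_add_neg]
  exact hx.add hy.neg

theorem Ev.mul {x : ℝ} (hx : Ev x) (n : ℤ) : Ev (n * x) := by
  obtain ⟨m, rfl⟩ := hx
  exact ⟨n * m, by push_cast; ring⟩

theorem Ev.congr {x y : ℝ} (hx : Ev x) (h : x = y) : Ev y := h ▸ hx

/-- An angle structure with values in `ℝ / 2`: the angles `π a t k` of each tetrahedron have the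
sum `π` modulo `2 π`, and the sum of the angles around each edge is `0` modulo `2 π` (in
functional form). -/
structure IsAngle (T : Triangulation) (a : T.Tet → Fin 3 → ℝ) : Prop where
  row : ∀ t, Ev (a t 0 + a t 1 + a t 2 - 1)
  edge : ∀ y, IsWeight T y → Ev (∑ t, ev (y t) (a t))

/-! ### the parity lemma -/

section Parity

variable {T : Triangulation}

/-- the sum of the weights of the edges of a face -/
def fs (y : Fin 4 → Fin 4 → ℤ) : Fin 4 → ℤ :=
  ![y 1 2 + y 1 3 + y 2 3, y 0 2 + y 0 3 + y 2 3, y 0 1 + y 0 3 + y 1 3, y 0 1 + y 0 2 + y 1 2]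

theorem two_fs {y : Fin 4 → Fin 4 → ℤ} (hs : ∀ i j, y i j = y j i) (f : Fin 4) :
    2 * fs y f = ∑ i, ∑ j, if i ≠ j ∧ i ≠ f ∧ j ≠ f then y i j else 0 := by
  have h10 := hs 1 0
  have h20 := hs 2 0
  have h30 := hs 3 0
  have h21 := hs 2 1
  have h31 := hs 3 1
  have h32 := hs 3 2
  fin_cases f <;> simp [fs, Fin.sum_univ_four] <;> linarith

theorem fs_glue {y : T.Tet → Fin 4 → Fin 4 → ℤ} (hy : IsWeight T y) (t : T.Tet) (f : Fin 4) :
    fs (y (T.adj t f)) (T.perm t f f) = fs (y t) f := by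
  have h1 := two_fs (hy.symm (T.adj t f)) (T.perm t f f)
  have h2 := two_fs (hy.symm t) f
  have h3 : (∑ i, ∑ j, if i ≠ j ∧ i ≠ T.perm t f f ∧ j ≠ T.perm t f f then
      y (T.adj t f) i j else 0) = ∑ i, ∑ j, if i ≠ j ∧ i ≠ f ∧ j ≠ f then y t i j else 0 := by
    rw [← Equiv.sum_comp (T.perm t f)]
    refine Finset.sum_congr rfl fun i _ => ?_
    rw [← Equiv.sum_comp (T.perm t f)]
    refine Finset.sum_congr rfl fun j _ => ?_
    simp only [ne_eq, EmbeddingLike.apply_eq_iff_eq]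
    split_ifs with h
    · exact hy.glue t f i j h.2.1 h.2.2 h.1
    · rfl
  rw [h3, ← h2] at h1
  linarith

/-- The sum of an integer function on the faces of the tetrahedra which is invariant under the
gluing is even. -/
theorem even_faces (g : T.Tet × Fin 4 → ℤ)
    (hg : ∀ t f, g (T.adj t f, T.perm t f f) = g (t, f)) : Even (∑ p, g p) := by
  have h : ((∑ p, g p : ℤ) : ZMod 2) = 0 := by
    push_cast
    apply Finset.sum_involution (fun p _ => (T.adj p.1 p.2, T.perm p.1 p.2 p.2))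
    · rintro ⟨t, f⟩ _
      rw [hg]
      exact CharTwo.add_self_eq_zero _
    · rintro ⟨t, f⟩ _ _ h
      rw [Prod.mk.injEq] at h
      exact T.ne_self t f h
    · intro _ _
      exact Finset.mem_univ _
    · rintro ⟨t, f⟩ _
      show (T.adj (T.adj t f) (T.perm t f f), T.perm (T.adj t f) (T.perm t f f) (T.perm t f f)) = _
      rw [T.adj_adj, T.perm_perm]
      simp
  rw [ZMod.intCast_zmod_eq_zero_iff_dvd] at h
  exact even_iff_two_dvd.2 (by exact_mod_cast h)

theorem parity {y : T.Tet → Fin 4 → Fin 4 → ℤ} (hy : IsWeight T y) (u : T.Tet → ℤ)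
    (h0 : ∀ t, u t + (y t 0 1 + y t 2 3) = 0) (h1 : ∀ t, u t + (y t 0 2 + y t 1 3) = 0)
    (h2 : ∀ t, u t + (y t 0 3 + y t 1 2) = 0) : Even (∑ t, u t) := by
  have hg := even_faces (T := T) (fun p => fs (y p.1) p.2 / 2) (fun t f => by
    show fs (y (T.adj t f)) (T.perm t f f) / 2 = fs (y t) f / 2
    rw [fs_glue hy])
  have key : ∀ t, -3 * u t = ∑ f, fs (y t) f / 2 + 2 * (fs (y t) 0 % 2) := by
    intro t
    have e0 := h0 t
    have e1 := h1 t
    have e2 := h2 t
    rw [Fin.sum_univ_four]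
    simp only [fs, Matrix.cons_val_zero, Matrix.cons_val_one, Matrix.cons_val]
    omega
  rw [Fintype.sum_prod_type] at hg
  have h3 : -3 * ∑ t, u t = ∑ t, ∑ f, fs (y t) f / 2 + 2 * ∑ t, fs (y t) 0 % 2 := by
    rw [Finset.mul_sum, Finset.mul_sum, ← Finset.sum_add_distrib]
    exact Finset.sum_congr rfl fun t _ => key t
  obtain ⟨m, hm⟩ := hg
  have hm' : ∑ t, ∑ f, fs (y t) f / 2 = m + m := hm
  rw [hm'] at h3
  rw [Int.even_iff]
  omega

end Parity

/-! ### existence -/

section Exists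

variable (T : Triangulation)

/-- the submodule of weights -/
def weights : Submodule ℤ (T.Tet → Fin 4 → Fin 4 → ℤ) where
  carrier := {y | IsWeight T y}
  add_mem' := by
    intro y z hy hz
    refine ⟨fun t i j => ?_, fun t f i j h1 h2 h3 => ?_⟩
    · show y t i j + z t i j = y t j i + z t j i
      rw [hy.symm, hz.symm]
    · show y _ _ _ + z _ _ _ = y t i j + z t i j
      rw [hy.glue t f i j h1 h2 h3, hz.glue t f i j h1 h2 h3]
  zero_mem' := ⟨fun _ _ _ => rfl, fun _ _ _ _ _ _ _ => rfl⟩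
  smul_mem' := by
    intro c y hy
    refine ⟨fun t i j => ?_, fun t f i j h1 h2 h3 => ?_⟩
    · show c • y t i j = c • y t j i
      rw [hy.symm]
    · show c • y _ _ _ = c • y t i j
      rw [hy.glue t f i j h1 h2 h3]

/-- the weight of the pair of opposite edges -/
def ek (y : Fin 4 → Fin 4 → ℤ) : Fin 3 → ℤ :=
  ![y 0 1 + y 2 3, y 0 2 + y 1 3, y 0 3 + y 1 2]

/-- the homomorphism of the equations -/
def fmap : ((T.Tet → ℤ) × weights T) →ₗ[ℤ] (T.Tet × Fin 3 → ℤ) where
  toFun p := fun q => p.1 q.1 + ek (p.2.1 q.1) q.2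
  map_add' := by
    intro p p'
    funext q
    obtain ⟨t, k⟩ := q
    fin_cases k <;> simp [ek] <;> ring
  map_smul' := by
    intro c p
    funext q
    obtain ⟨t, k⟩ := q
    fin_cases k <;> simp [ek] <;> ring

/-- the right-hand side of the equations -/
noncomputable def bmap : ((T.Tet → ℤ) × weights T) →ₗ[ℤ] AddCircle (1 : ℚ) where
  toFun p := (∑ t, p.1 t) • ((1 / 2 : ℚ) : AddCircle (1 : ℚ))
  map_add' := by
    intro p p'
    rw [← add_smul, ← Finset.sum_add_distrib]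
    rfl
  map_smul' := by
    intro c p
    rw [RingHom.id_apply, smul_smul, Finset.mul_sum]
    rfl

theorem half_two : (2 : ℤ) • ((1 / 2 : ℚ) : AddCircle (1 : ℚ)) = 0 := by
  rw [← AddCircle.coe_zsmul, AddCircle.coe_eq_zero_iff]
  exact ⟨1, by norm_num⟩

theorem ker_le : LinearMap.ker (fmap T) ≤ LinearMap.ker (bmap T) := by
  intro p hp
  rw [LinearMap.mem_ker] at hp ⊢
  obtain ⟨u, y, hy⟩ := p
  have h : ∀ t k, u t + ek (y t) k = 0 := fun t k => congrFun hp (t, k)
  obtain ⟨m, hm⟩ := parity hy u (fun t => h t 0) (fun t => h t 1) (fun t => h t 2)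
  show (∑ t, u t) • ((1 / 2 : ℚ) : AddCircle (1 : ℚ)) = 0
  rw [hm, ← mul_two, mul_smul, half_two, smul_zero]

theorem exists_char : ∃ φ : (T.Tet × Fin 3 → ℤ) →+ AddCircle (1 : ℚ),
    ∀ p, φ (fmap T p) = bmap T p := by
  have hinj : Function.Injective ((LinearMap.ker (fmap T)).liftQ (fmap T) le_rfl) := by
    rw [← LinearMap.ker_eq_bot]
    exact Submodule.ker_liftQ_eq_bot _ _ _ le_rfl
  obtain ⟨φ, hφ⟩ := CharacterModule.dual_surjective_of_injective
    ((LinearMap.ker (fmap T)).liftQ (fmap T) le_rfl) hinj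
    ((LinearMap.ker (fmap T)).liftQ (bmap T) (ker_le T)).toAddMonoidHom
  refine ⟨φ, fun p => ?_⟩
  have h := DFunLike.congr_fun hφ (Submodule.Quotient.mk p)
  exact h

open Classical in
/-- Every triangulation has an angle structure with values in `ℝ / 2`. -/
theorem exists_angle : ∃ a : T.Tet → Fin 3 → ℝ, IsAngle T a := by
  obtain ⟨φ, hφ⟩ := exists_char T
  have hrep : ∀ q : T.Tet × Fin 3, ∃ r : ℚ, (r : AddCircle (1 : ℚ)) = φ (Pi.single q 1) :=
    fun q => QuotientAddGroup.mk_surjective _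
  choose r hr using hrep
  have hlin : ∀ v : T.Tet × Fin 3 → ℤ,
      φ v = ((∑ q, (v q : ℚ) * r q : ℚ) : AddCircle (1 : ℚ)) := by
    intro v
    have h1 : v = ∑ q, v q • Pi.single q (1 : ℤ) := by
      funext q'
      simp [Finset.sum_apply, Pi.single_apply]
    conv_lhs => rw [h1]
    rw [map_sum]
    have h2 : ((∑ q, (v q : ℚ) * r q : ℚ) : AddCircle (1 : ℚ)) =
        ∑ q, ((v q * r q : ℚ) : AddCircle (1 : ℚ)) :=
      map_sum (QuotientAddGroup.mk' (AddSubgroup.zmultiples (1 : ℚ))) _ _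
    rw [h2]
    refine Finset.sum_congr rfl fun q _ => ?_
    rw [map_zsmul, ← hr q, ← AddCircle.coe_zsmul, zsmul_eq_mul]
  refine ⟨fun t k => 2 * (r (t, k) : ℝ), ⟨fun t => ?_, fun y hy => ?_⟩⟩
  · have h := hφ (Pi.single t 1, 0)
    rw [hlin] at h
    have h1 : bmap T (Pi.single t 1, 0) = ((1 / 2 : ℚ) : AddCircle (1 : ℚ)) := by
      show (∑ t', (Pi.single t (1 : ℤ) : T.Tet → ℤ) t') • ((1 / 2 : ℚ) : AddCircle (1 : ℚ)) = _
      rw [Finset.sum_pi_single']
      simp
    have h2 : ∑ q, ((fmap T (Pi.single t 1, 0) q : ℤ) : ℚ) * r q =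
        r (t, 0) + r (t, 1) + r (t, 2) := by
      rw [Fintype.sum_prod_type]
      have h3 : ∀ t' : T.Tet, ∑ k, ((fmap T (Pi.single t 1, 0) (t', k) : ℤ) : ℚ) * r (t', k) =
          if t' = t then r (t, 0) + r (t, 1) + r (t, 2) else 0 := by
        intro t'
        have h4 : ∀ k, fmap T (Pi.single t 1, 0) (t', k) = if t' = t then 1 else 0 := by
          intro k
          show (Pi.single t (1 : ℤ) : T.Tet → ℤ) t' + ek (0 : Fin 4 → Fin 4 → ℤ) k = _
          have h5 : ek (0 : Fin 4 → Fin 4 → ℤ) k = 0 := by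
            fin_cases k <;> rfl
          rw [h5, add_zero, Pi.single_apply]
        simp only [h4]
        split_ifs with h6
        · subst h6
          rw [Fin.sum_univ_three]
          simp
        · simp
      simp only [h3]
      rw [Finset.sum_ite_eq' Finset.univ t]
      simp
    rw [h1, h2, ← sub_eq_zero, ← AddCircle.coe_sub, AddCircle.coe_eq_zero_iff] at h
    obtain ⟨n, hn⟩ := h
    refine ⟨n, ?_⟩
    have hn' : (n : ℝ) = r (t, 0) + r (t, 1) + r (t, 2) - 1 / 2 := by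
      have : (n : ℚ) = r (t, 0) + r (t, 1) + r (t, 2) - 1 / 2 := by
        rw [← hn]
        simp
      have h7 := congrArg (fun x : ℚ => (x : ℝ)) this
      push_cast at h7
      exact h7
    rw [hn']
    ring
  · have h := hφ (0, ⟨y, hy⟩)
    rw [hlin] at h
    have h1 : bmap T (0, ⟨y, hy⟩) = 0 := by
      show (∑ _t' : T.Tet, (0 : ℤ)) • ((1 / 2 : ℚ) : AddCircle (1 : ℚ)) = _
      simp
    rw [h1, AddCircle.coe_eq_zero_iff] at h
    obtain ⟨n, hn⟩ := h
    refine ⟨n, ?_⟩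
    have h2 : ∑ q, ((fmap T (0, ⟨y, hy⟩) q : ℤ) : ℝ) * (r q : ℝ) = n := by
      have : ∑ q, ((fmap T (0, ⟨y, hy⟩) q : ℤ) : ℚ) * r q = n := by
        rw [← hn]
        simp
      exact_mod_cast this
    rw [← h2, Fintype.sum_prod_type, Finset.mul_sum]
    refine Finset.sum_congr rfl fun t _ => ?_
    have h3 : ∀ k, fmap T (0, ⟨y, hy⟩) (t, k) = ek (y t) k := fun k => by
      show (0 : ℤ) + ek (y t) k = _
      rw [zero_add]
    simp only [h3]
    rw [Fin.sum_univ_three]
    simp only [ek, ev, Matrix.cons_val_zero, Matrix.cons_val_one, Matrix.cons_val]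
    ring

end Exists

end Pool.Agent.KS6_92.GN
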