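import Pool.Agent.KS6_92.GN.Spec

/-!
The cone (stellar subdivision) of a triangulation at a tetrahedron.
-/

set_option autoImplicit false

namespace Pool.Agent.KS6_92.GN

open Pool.Agent.H297R3.Luo Equiv

section

variable (T : Triangulation) (t0 : T.Tet)

open Classical in
/-- The tetrahedron of the subdivision which contains the face `f` of the tetrahedron `t`. -/
noncomputable def lift (t : T.Tet) (f : Fin 4) : {t : T.Tet // t ≠ t0} ⊕ Fin 4 :=
  if h : t = t0 then Sum.inr f else Sum.inl ⟨t, h⟩

variable {T t0}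

theorem lift_self (f : Fin 4) : lift T t0 t0 f = Sum.inr f := by
  unfold lift
  rw [dif_pos rfl]

theorem lift_ne {t : T.Tet} (h : t ≠ t0) (f : Fin 4) : lift T t0 t f = Sum.inl ⟨t, h⟩ := by
  unfold lift
  rw [dif_neg h]

theorem lift_inj {t t' : T.Tet} {f : Fin 4} (h : lift T t0 t f = lift T t0 t' f) : t = t' := by
  by_cases h1 : t = t0
  · subst h1
    by_cases h2 : t' = t
    · exact h2.symm
    · rw [lift_self, lift_ne h2] at h
      cases h
  · by_cases h2 : t' = t0
    · subst h2
      rw [lift_self, lift_ne h1] at h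
      cases h
    · rw [lift_ne h1, lift_ne h2] at h
      simpa using h

/-- The subdivision: adjacency. -/
noncomputable def cadj (s : {t : T.Tet // t ≠ t0} ⊕ Fin 4) (f : Fin 4) :
    {t : T.Tet // t ≠ t0} ⊕ Fin 4 :=
  match s with
  | Sum.inl t => lift T t0 (T.adj t.1 f) (T.perm t.1 f f)
  | Sum.inr i => if f = i then lift T t0 (T.adj t0 f) (T.perm t0 f f) else Sum.inr f

/-- The subdivision: gluing maps. -/
def cperm (s : {t : T.Tet // t ≠ t0} ⊕ Fin 4) (f : Fin 4) : Equiv.Perm (Fin 4) :=
  match s with
  | Sum.inl t => T.perm t.1 f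
  | Sum.inr i => if f = i then T.perm t0 f else swap i f

theorem cadj_lift (t : T.Tet) (f : Fin 4) :
    cadj (lift T t0 t f) f = lift T t0 (T.adj t f) (T.perm t f f) := by
  by_cases h : t = t0
  · subst h
    rw [lift_self]
    show (if f = f then _ else _) = _
    rw [if_pos rfl]
  · rw [lift_ne h]
    rfl

theorem cperm_lift (t : T.Tet) (f : Fin 4) : cperm (lift T t0 t f) f = T.perm t f := by
  by_cases h : t = t0
  · subst h
    rw [lift_self]
    show (if f = f then _ else _) = _
    rw [if_pos rfl]
  · rw [lift_ne h]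
    rfl

theorem cadj_inner {i f : Fin 4} (h : f ≠ i) :
    cadj (T := T) (t0 := t0) (Sum.inr i) f = Sum.inr f := by
  show (if f = i then _ else _) = _
  rw [if_neg h]

theorem cperm_inner {i f : Fin 4} (h : f ≠ i) :
    cperm (T := T) (t0 := t0) (Sum.inr i) f = swap i f := by
  show (if f = i then _ else _) = _
  rw [if_neg h]

/-- every face of the subdivision is outer or inner -/
theorem face_cases (s : {t : T.Tet // t ≠ t0} ⊕ Fin 4) (f : Fin 4) :
    (∃ t, s = lift T t0 t f) ∨ (∃ i, f ≠ i ∧ s = Sum.inr i) := by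
  rcases s with ⟨t, ht⟩ | i
  · exact Or.inl ⟨t, (lift_ne ht f).symm⟩
  · by_cases h : f = i
    · subst h
      exact Or.inl ⟨t0, (lift_self f).symm⟩
    · exact Or.inr ⟨i, h, rfl⟩

variable (T t0)

/-- The stellar subdivision of `T` at the tetrahedron `t0` (a 1-4 move): `t0` is replaced by
the four cones from an interior point over its faces; the tetrahedron `Sum.inr i` has the new
vertex in place of the vertex `i`. -/
noncomputable def cone : Triangulation where
  Tet := {t : T.Tet // t ≠ t0} ⊕ Fin 4
  fintypeTet := by classical infer_instance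
  adj := cadj
  perm := cperm
  adj_adj := by
    intro s f
    rcases face_cases s f with ⟨t, rfl⟩ | ⟨i, h, rfl⟩
    · rw [cadj_lift, cperm_lift, cadj_lift, T.adj_adj, T.perm_perm]
      simp
    · rw [cadj_inner h, cperm_inner h, swap_apply_right, cadj_inner h.symm]
  perm_perm := by
    intro s f
    rcases face_cases s f with ⟨t, rfl⟩ | ⟨i, h, rfl⟩
    · rw [cadj_lift, cperm_lift, cperm_lift, T.perm_perm]
    · rw [cadj_inner h, cperm_inner h, swap_apply_right, cperm_inner h.symm, swap_inv, swap_comm]
  odd := by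
    intro s f
    rcases face_cases s f with ⟨t, rfl⟩ | ⟨i, h, rfl⟩
    · rw [cperm_lift]
      exact T.odd t f
    · rw [cperm_inner h]
      exact Perm.sign_swap h.symm
  ne_self := by
    intro s f
    rcases face_cases s f with ⟨t, rfl⟩ | ⟨i, h, rfl⟩
    · rintro ⟨h1, h2⟩
      rw [cadj_lift, cperm_lift] at *
      rw [h2] at h1
      exact T.ne_self t f ⟨lift_inj h1, h2⟩
    · rintro ⟨h1, -⟩
      rw [cadj_inner h] at h1
      exact h (Sum.inr_injective h1)

theorem cone_adj (s : (cone T t0).Tet) (f : Fin 4) : (cone T t0).adj s f = cadj s f := rfl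

theorem cone_perm (s : (cone T t0).Tet) (f : Fin 4) : (cone T t0).perm s f = cperm s f := rfl

open Classical in
theorem cone_card : Fintype.card (cone T t0).Tet = Fintype.card T.Tet + 3 := by
  have h : Fintype.card (cone T t0).Tet = Fintype.card ({t : T.Tet // t ≠ t0} ⊕ Fin 4) :=
    Fintype.card_congr (Equiv.refl _)
  rw [h, Fintype.card_sum, Fintype.card_fin]
  have h2 : Fintype.card {t : T.Tet // t ≠ t0} = Fintype.card T.Tet - 1 := by
    rw [Fintype.card_subtype_compl, Fintype.card_subtype_eq]
  have h3 : 0 < Fintype.card T.Tet := Fintype.card_pos_iff.2 ⟨t0⟩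
  omega

open Classical in
/-- sums over the tetrahedra of the subdivision -/
theorem cone_sum {M : Type*} [AddCommMonoid M] (g : (cone T t0).Tet → M) :
    ∑ s : (cone T t0).Tet, g s =
      ∑ t : {t : T.Tet // t ≠ t0}, g (Sum.inl t) + ∑ i : Fin 4, g (Sum.inr i) := by
  have h : ∑ s : (cone T t0).Tet, g s =
      ∑ s : ({t : T.Tet // t ≠ t0} ⊕ Fin 4), g s :=
    Fintype.sum_equiv (Equiv.refl _) _ _ fun _ => rfl
  rw [h, Fintype.sum_sum_type]

open Classical in
theorem sum_split {M : Type*} [AddCommMonoid M] (g : T.Tet → M) :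
    ∑ t : T.Tet, g t = ∑ t : {t : T.Tet // t ≠ t0}, g t.1 + g t0 := by
  rw [Fintype.sum_eq_add_sum_subtype_ne g t0, add_comm]

end

/-- `Stellar T T'`: `T'` is obtained from `T` by finitely many stellar subdivisions at
tetrahedra (1-4 moves). -/
inductive Stellar (T : Triangulation) : Triangulation → Prop
  | refl : Stellar T T
  | step (T' : Triangulation) (t0 : T'.Tet) : Stellar T T' → Stellar T (cone T' t0)

end Pool.Agent.KS6_92.GN
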