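import Pool.Agent.KS6_92.GN.Shp

/-!
Reduction of tetrahedra by stellar subdivisions: the combinatorial game.
-/

set_option autoImplicit false

namespace Pool.Agent.KS6_92.GN

open Pool.Agent.H297R3.Luo Pool.Agent.Y415.LU Real Filter Topology

/-- equality of angles modulo `2` -/
def MEq (θ θ' : Fin 3 → ℝ) : Prop := ∀ k, Ev (θ' k - θ k)

/-- `Red θ s`: a tetrahedron with the angles `θ` can be replaced, by stellar subdivisions, by
tetrahedra with the angles in the multiset `s`. -/
inductive Red : (Fin 3 → ℝ) → Multiset (Fin 3 → ℝ) → Prop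
  | refl (θ : Fin 3 → ℝ) : Red θ {θ}
  | shift (θ θ' : Fin 3 → ℝ) (s : Multiset (Fin 3 → ℝ)) : MEq θ θ' → Red θ' s → Red θ s
  | cone (θ : Fin 3 → ℝ) (α : Fin 4 → Fin 3 → ℝ) (s0 s1 s2 s3 : Multiset (Fin 3 → ℝ)) :
      Compat θ α → Red (α 0) s0 → Red (α 1) s1 → Red (α 2) s2 → Red (α 3) s3 →
      Red θ (s0 + s1 + s2 + s3)

/-! ### negation -/

theorem MEq.neg {θ θ' : Fin 3 → ℝ} (h : MEq θ θ') : MEq (-θ) (-θ') := by
  intro k
  refine (h k).neg.congr ?_
  simp only [Pi.neg_apply]
  ring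

theorem Ev.two : Ev 2 := ⟨1, by norm_num⟩

theorem Compat.neg {θ : Fin 3 → ℝ} {α : Fin 4 → Fin 3 → ℝ} (h : Compat θ α) :
    Compat (-θ) (-α) := by
  constructor
  · intro i
    refine ((h.row i).neg.sub Ev.two).congr ?_
    simp only [Pi.neg_apply]
    ring
  · refine h.o01.neg.congr ?_
    simp only [Pi.neg_apply]; ring
  · refine h.o23.neg.congr ?_
    simp only [Pi.neg_apply]; ring
  · refine h.o02.neg.congr ?_
    simp only [Pi.neg_apply]; ring
  · refine h.o13.neg.congr ?_
    simp only [Pi.neg_apply]; ring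
  · refine h.o03.neg.congr ?_
    simp only [Pi.neg_apply]; ring
  · refine h.o12.neg.congr ?_
    simp only [Pi.neg_apply]; ring
  · refine h.i0.neg.congr ?_
    simp only [Pi.neg_apply]; ring
  · refine h.i1.neg.congr ?_
    simp only [Pi.neg_apply]; ring
  · refine h.i2.neg.congr ?_
    simp only [Pi.neg_apply]; ring
  · refine h.i3.neg.congr ?_
    simp only [Pi.neg_apply]; ring

theorem Red.neg {θ : Fin 3 → ℝ} {s : Multiset (Fin 3 → ℝ)} (h : Red θ s) :
    Red (-θ) (s.map fun x => -x) := by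
  induction h with
  | refl θ => exact Red.refl _
  | shift θ θ' s h1 _ ih => exact Red.shift _ _ _ h1.neg ih
  | cone θ α s0 s1 s2 s3 hc _ _ _ _ i0 i1 i2 i3 =>
    simp only [Multiset.map_add]
    exact Red.cone _ (-α) _ _ _ _ hc.neg i0 i1 i2 i3

theorem Good.neg {θ : Fin 3 → ℝ} (h : Good θ) : Good (-θ) := by
  rcases h with h | h
  · right
    intro k
    rw [Pi.neg_apply, mul_neg, Real.sin_neg]
    linarith [h k]
  · left
    intro k
    rw [Pi.neg_apply, mul_neg, Real.sin_neg]
    linarith [h k]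

theorem V_neg (θ : Fin 3 → ℝ) : V (-θ) = - V θ := by
  unfold V
  simp only [Pi.neg_apply, mul_neg, lob_neg]
  ring

/-! ### the move -/

/-- the triple with sum `1` -/
def T3 (a b : ℝ) : Fin 3 → ℝ := ![a, b, 1 - a - b]

theorem move (x y e e' b : ℝ) : Compat (T3 (x + y + e + e') b)
    ![T3 (x + e') (b + e), T3 (y + e) (b + e'), -T3 (1 - x - e) e, -T3 (1 - y - e') e'] := by
  constructor
  · intro i
    fin_cases i
    · exact ⟨0, by simp [T3]⟩
    · exact ⟨0, by simp [T3]⟩
    · exact ⟨-1, by simp [T3]; ring⟩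
    · exact ⟨-1, by simp [T3]; ring⟩
  · exact ⟨-1, by simp [T3]; ring⟩
  · exact ⟨0, by simp [T3]; ring⟩
  · exact ⟨0, by simp [T3]⟩
  · exact ⟨0, by simp [T3]⟩
  · exact ⟨0, by simp [T3]; ring⟩
  · exact ⟨0, by simp [T3]; ring⟩
  · exact ⟨0, by simp [T3]; ring⟩
  · exact ⟨0, by simp [T3]; ring⟩
  · exact ⟨0, by simp [T3]; ring⟩
  · exact ⟨0, by simp [T3]; ring⟩

theorem red_move (x y e e' b : ℝ) {s0 s1 s2 s3 : Multiset (Fin 3 → ℝ)}
    (h0 : Red (T3 (x + e') (b + e)) s0) (h1 : Red (T3 (y + e) (b + e')) s1)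
    (h2 : Red (-T3 (1 - x - e) e) s2) (h3 : Red (-T3 (1 - y - e') e') s3) :
    Red (T3 (x + y + e + e') b) (s0 + s1 + s2 + s3) :=
  Red.cone _ _ _ _ _ _ (move x y e e' b) h0 h1 h2 h3

/-! ### good triples -/

theorem good_T3 {a b : ℝ} (ha : 0 < a) (hb : 0 < b) (hab : a + b < 1) : Good (T3 a b) := by
  have hpi := Real.pi_pos
  have key : ∀ x : ℝ, 0 < x → x < 1 → 0 < Real.sin (π * x) := fun x h0 h1 =>
    Real.sin_pos_of_pos_of_lt_pi (by positivity) (by nlinarith)
  left
  intro k
  fin_cases k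
  · exact key a ha (by linarith)
  · exact key b hb (by linarith)
  · exact key (1 - a - b) (by linarith) (by linarith)

theorem V_T3_nonneg {a b : ℝ} (ha : 0 < a) (hb : 0 < b) (hab : a + b < 1) : 0 ≤ V (T3 a b) := by
  have hpi := Real.pi_pos
  apply three_nonneg
  · show 0 < π * a
    positivity
  · show 0 < π * b
    positivity
  · show 0 < π * (1 - a - b)
    apply mul_pos hpi
    linarith
  · show π * a + π * b + π * (1 - a - b) = π
    ring

theorem continuous_V_T3 {f g : ℝ → ℝ} (hf : Continuous f) (hg : Continuous g) :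
    Continuous fun e => V (T3 (f e) (g e)) := by
  have h : (fun e => V (T3 (f e) (g e))) = fun e =>
      lob (π * f e) + lob (π * g e) + lob (π * (1 - f e - g e)) := rfl
  rw [h]
  have := continuous_lob
  fun_prop

theorem V_thin (x : ℝ) : V (T3 (1 - x) 0) = 0 := by
  show lob (π * (1 - x)) + lob (π * 0) + lob (π * (1 - (1 - x) - 0)) = 0
  have h1 : π * (1 - x) = π - π * x := by ring
  have h2 : π * (1 - (1 - x) - 0) = π * x := by ring
  rw [h1, h2, lob_pi_sub, mul_zero, lob_zero]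
  ring

theorem sin_ne_near (A : ℝ) : ∀ᶠ e in 𝓝[>] (0 : ℝ), Real.sin (π * (A - e)) ≠ 0 := by
  have h1 : 0 < A - (⌈A⌉ - 1) := by
    have := Int.ceil_lt_add_one A
    linarith
  have h2 : Set.Ioo (0 : ℝ) (A - (⌈A⌉ - 1)) ∈ 𝓝[>] (0 : ℝ) := Ioo_mem_nhdsGT h1
  filter_upwards [h2] with e he hs
  rw [Real.sin_eq_zero_iff] at hs
  obtain ⟨n, hn⟩ := hs
  have hpi := Real.pi_pos
  have h3 : (n : ℝ) = A - e := by
    have : π * (n : ℝ) = π * (A - e) := by rw [← hn]; ring
    exact mul_left_cancel₀ hpi.ne' this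
  have h4 : (n : ℝ) < ⌈A⌉ := by
    have := Int.le_ceil A
    linarith [he.1]
  have h5 : ((⌈A⌉ - 1 : ℤ) : ℝ) < n := by
    push_cast
    linarith [he.2]
  have h4' : n < ⌈A⌉ := by exact_mod_cast h4
  have h5' : ⌈A⌉ - 1 < n := by exact_mod_cast h5
  omega

/-- the choice of `e` -/
theorem choose_e (x : ℝ) (hx : Real.sin (π * x) ≠ 0) {P : ℝ → Prop} (hP : ∀ᶠ e in 𝓝 (0 : ℝ), P e) :
    ∃ e, P e ∧ Good (T3 (1 - x - e) e) := by
  have hpi := Real.pi_pos
  have hc : Continuous fun e : ℝ => Real.sin (π * (x + e)) := by fun_prop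
  have e1 : ∀ e : ℝ, Real.sin (π * (1 - x - e)) = Real.sin (π * (x + e)) := by
    intro e
    have : π * (1 - x - e) = π - π * (x + e) := by ring
    rw [this, Real.sin_pi_sub]
  have e2 : ∀ e : ℝ, π * (1 - (1 - x - e) - e) = π * x := by
    intro e; ring
  rcases lt_or_gt_of_ne hx with h | h
  · have h1 : ∀ᶠ e in 𝓝 (0 : ℝ), Real.sin (π * (x + e)) < 0 := by
      apply hc.continuousAt.eventually_lt continuousAt_const
      simpa using h
    have h2 : ∀ᶠ e in 𝓝[<] (0 : ℝ), P e ∧ Real.sin (π * (x + e)) < 0 :=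
      (hP.and h1).filter_mono nhdsWithin_le_nhds
    have h3 : Set.Ioo (-1 : ℝ) 0 ∈ 𝓝[<] (0 : ℝ) := Ioo_mem_nhdsLT (by norm_num)
    obtain ⟨e, he1, he2⟩ := (h2.and h3).exists
    refine ⟨e, he1.1, Or.inr ?_⟩
    intro k
    fin_cases k
    · show Real.sin (π * (1 - x - e)) < 0
      rw [e1]
      exact he1.2
    · show Real.sin (π * e) < 0
      apply Real.sin_neg_of_neg_of_neg_pi_lt
      · exact mul_neg_of_pos_of_neg hpi he2.2
      · have := he2.1
        nlinarith
    · show Real.sin (π * (1 - (1 - x - e) - e)) < 0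
      rw [e2]
      exact h
  · have h1 : ∀ᶠ e in 𝓝 (0 : ℝ), 0 < Real.sin (π * (x + e)) := by
      apply continuousAt_const.eventually_lt hc.continuousAt
      simpa using h
    have h2 : ∀ᶠ e in 𝓝[>] (0 : ℝ), P e ∧ 0 < Real.sin (π * (x + e)) :=
      (hP.and h1).filter_mono nhdsWithin_le_nhds
    have h3 : Set.Ioo (0 : ℝ) 1 ∈ 𝓝[>] (0 : ℝ) := Ioo_mem_nhdsGT (by norm_num)
    obtain ⟨e, he1, he2⟩ := (h2.and h3).exists
    refine ⟨e, he1.1, Or.inl ?_⟩
    intro k
    fin_cases k
    · show 0 < Real.sin (π * (1 - x - e))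
      rw [e1]
      exact he1.2
    · show 0 < Real.sin (π * e)
      apply Real.sin_pos_of_pos_of_lt_pi
      · exact mul_pos hpi he2.1
      · have := he2.2
        nlinarith
    · show 0 < Real.sin (π * (1 - (1 - x - e) - e))
      rw [e2]
      exact h

/-- Peeling off positively oriented tetrahedra. -/
theorem peel {b0 δ r v η : ℝ} (hη : 0 < η) (hb0 : δ ≤ b0) (hr : 0 < r)
    (hbr : b0 + δ + r ≤ 1) (hv : ∀ b, |b - b0| < δ → v ≤ V (T3 r b)) :
    ∀ (n : ℕ) (b ρ : ℝ), |b - b0| < δ → 0 < ρ → ρ ≤ r → ∃ s, Red (T3 (ρ + n * r) b) s ∧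
      (∀ θ ∈ s, Good θ) ∧ s.card = 3 * n + 1 ∧ n * (v - η) ≤ (s.map V).sum := by
  intro n
  induction n with
  | zero =>
    intro b ρ hb hρ hρr
    obtain ⟨hb1, hb2⟩ := abs_lt.1 hb
    have h1 : Good (T3 ρ b) := good_T3 hρ (by linarith) (by linarith)
    have h2 : 0 ≤ V (T3 ρ b) := V_T3_nonneg hρ (by linarith) (by linarith)
    refine ⟨{T3 ρ b}, ?_, ?_, by simp, by simpa using h2⟩
    · have : ρ + ((0 : ℕ) : ℝ) * r = ρ := by simp
      rw [this]
      exact Red.refl _
    · intro θ hθ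
      rw [Multiset.mem_singleton] at hθ
      rw [hθ]
      exact h1
  | succ n ih =>
    intro b ρ hb hρ hρr
    obtain ⟨hb1, hb2⟩ := abs_lt.1 hb
    set A : ℝ := ρ + n * r with hA
    -- the choice of `e'`
    have c1 : ∀ᶠ e' in 𝓝 (0 : ℝ), |b + e' - b0| < δ := by
      have hc : Continuous fun e' : ℝ => |b + e' - b0| := by fun_prop
      apply hc.continuousAt.eventually_lt continuousAt_const
      simpa using hb
    have c2 : ∀ᶠ e' in 𝓝 (0 : ℝ), |V (T3 (1 - r - e') e')| < η / 2 := by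
      have hc : Continuous fun e' : ℝ => |V (T3 (1 - r - e') e')| :=
        (continuous_V_T3 (by fun_prop) (by fun_prop)).abs
      apply hc.continuousAt.eventually_lt continuousAt_const
      rw [sub_zero, V_thin]
      simpa using half_pos hη
    have hr1 : r < 1 := by linarith
    have c3 : ∀ᶠ e' in 𝓝 (0 : ℝ), r + e' < 1 := by
      have hc : Continuous fun e' : ℝ => r + e' := by fun_prop
      apply hc.continuousAt.eventually_lt continuousAt_const
      simpa using hr1
    have c4 := ((c1.and (c2.and c3)).filter_mono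
      (nhdsWithin_le_nhds (s := Set.Ioi (0 : ℝ)))).and (sin_ne_near A)
    obtain ⟨e', ⟨⟨d1, d2, d3⟩, d4⟩, d5⟩ := (c4.and self_mem_nhdsWithin).exists
    change 0 < e' at d5
    -- the choice of `e`
    have f1 : ∀ᶠ e in 𝓝 (0 : ℝ), |b + e - b0| < δ := c1
    have f2 : ∀ᶠ e in 𝓝 (0 : ℝ), |V (T3 (1 - (r - e) - e') e')| < η / 2 := by
      have hc : Continuous fun e : ℝ => |V (T3 (1 - (r - e) - e') e')| :=
        (continuous_V_T3 (by fun_prop) (by fun_prop)).abs
      apply hc.continuousAt.eventually_lt continuousAt_const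
      rw [sub_zero]
      exact d2
    have f3 : ∀ᶠ e in 𝓝 (0 : ℝ), |V (T3 (1 - (A - e') - e) e)| < η / 2 := by
      have hc : Continuous fun e : ℝ => |V (T3 (1 - (A - e') - e) e)| :=
        (continuous_V_T3 (by fun_prop) (by fun_prop)).abs
      apply hc.continuousAt.eventually_lt continuousAt_const
      rw [sub_zero, V_thin]
      simpa using half_pos hη
    have f4 : ∀ᶠ e in 𝓝 (0 : ℝ), 0 < r - e := by
      have hc : Continuous fun e : ℝ => r - e := by fun_prop
      apply continuousAt_const.eventually_lt hc.continuousAt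
      simpa using hr
    have f5 : ∀ᶠ e in 𝓝 (0 : ℝ), r - e + e' < 1 := by
      have hc : Continuous fun e : ℝ => r - e + e' := by fun_prop
      apply hc.continuousAt.eventually_lt continuousAt_const
      simpa using d3
    obtain ⟨e, ⟨g1, g2, g3, g4, g5⟩, g6⟩ := choose_e (A - e') d4
      (f1.and (f2.and (f3.and (f4.and f5))))
    obtain ⟨s0, h0, hg0, hc0, hs0⟩ := ih (b + e) ρ g1 hρ hρr
    obtain ⟨k1, k2⟩ := abs_lt.1 d1
    have m1 : Good (T3 r (b + e')) := good_T3 hr (by linarith) (by linarith)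
    have m3 : Good (T3 (1 - (r - e) - e') e') := good_T3 (by linarith) d5 (by linarith)
    refine ⟨s0 + {T3 r (b + e')} + {-T3 (1 - (A - e') - e) e} + {-T3 (1 - (r - e) - e') e'},
      ?_, ?_, ?_, ?_⟩
    · have key := red_move (A - e') (r - e) e e' b (s0 := s0) (s1 := {T3 r (b + e')})
        (s2 := {-T3 (1 - (A - e') - e) e}) (s3 := {-T3 (1 - (r - e) - e') e'})
        (by rw [sub_add_cancel]; exact h0) (by rw [sub_add_cancel]; exact Red.refl _)
        (Red.refl _) (Red.refl _)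
      have : A - e' + (r - e) + e + e' = ρ + ((n + 1 : ℕ) : ℝ) * r := by
        rw [hA]
        push_cast
        ring
      rw [this] at key
      exact key
    · intro θ hθ
      rw [Multiset.mem_add, Multiset.mem_add, Multiset.mem_add, Multiset.mem_singleton,
        Multiset.mem_singleton, Multiset.mem_singleton] at hθ
      rcases hθ with ((hθ | hθ) | hθ) | hθ
      · exact hg0 θ hθ
      · rw [hθ]; exact m1
      · rw [hθ]; exact g6.neg
      · rw [hθ]; exact m3.neg
    · rw [Multiset.card_add, Multiset.card_add, Multiset.card_add, Multiset.card_singleton,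
        Multiset.card_singleton, Multiset.card_singleton, hc0]
      ring
    · rw [Multiset.map_add, Multiset.map_add, Multiset.map_add, Multiset.map_singleton,
        Multiset.map_singleton, Multiset.map_singleton, Multiset.sum_add, Multiset.sum_add,
        Multiset.sum_add, Multiset.sum_singleton, Multiset.sum_singleton, Multiset.sum_singleton,
        V_neg, V_neg]
      have w1 := hv (b + e') d1
      have w2 := (abs_lt.1 g2).2
      have w3 := (abs_lt.1 g3).2
      push_cast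
      linarith

end Pool.Agent.KS6_92.GN
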