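import Pool.Agent.KS6_92.GN.Game

/-!
Reduction of tetrahedra by stellar subdivisions: conclusion.
-/

set_option autoImplicit false

namespace Pool.Agent.KS6_92.GN

open Pool.Agent.H297R3.Luo Pool.Agent.Y415.LU Real Filter Topology

/-- representation of an angle, modulo `2` -/
theorem rep (a : ℝ) {r : ℝ} (hr : 0 < r) (N : ℕ) : ∃ (M : ℤ) (n : ℕ) (ρ : ℝ), N ≤ n ∧ 0 < ρ ∧
    ρ ≤ r ∧ a + 2 * M = ρ + n * r := by
  obtain ⟨M, hM⟩ := exists_nat_gt ((N + 1) * r - a)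
  have hM0 : (0 : ℝ) ≤ M := Nat.cast_nonneg M
  have h1 : (N + 1) * r < a + 2 * M := by linarith
  have h2 : (N : ℝ) + 1 < (a + 2 * M) / r := by
    rw [lt_div_iff₀ hr]
    exact h1
  have h3 : N + 1 < ⌈(a + 2 * M) / r⌉₊ := by
    rw [Nat.lt_ceil]
    push_cast
    exact h2
  obtain ⟨n, hn⟩ : ∃ n, ⌈(a + 2 * M) / r⌉₊ = n + 1 := ⟨⌈(a + 2 * M) / r⌉₊ - 1, by omega⟩
  have h4 : (n : ℝ) < (a + 2 * M) / r := by
    rw [← Nat.lt_ceil, hn]
    omega
  have h5 : (a + 2 * M) / r ≤ n + 1 := by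
    have := Nat.le_ceil ((a + 2 * M) / r)
    rw [hn] at this
    push_cast at this
    exact this
  rw [lt_div_iff₀ hr] at h4
  rw [div_le_iff₀ hr] at h5
  refine ⟨M, n, a + 2 * M - n * r, by omega, by linarith, by linarith, ?_⟩
  push_cast
  ring

theorem meq_T3 (a b : ℝ) (M N : ℤ) : MEq (T3 a b) (T3 (a + 2 * M) (b + 2 * N)) := by
  intro k
  fin_cases k
  · exact ⟨M, by simp [T3]⟩
  · exact ⟨N, by simp [T3]⟩
  · exact ⟨-M - N, by simp [T3]; ring⟩

/-- the property of being reducible to good tetrahedra -/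
def Fine (θ : Fin 3 → ℝ) : Prop := ∃ s, Red θ s ∧ ∀ x ∈ s, Good x

theorem Fine.shift {θ θ' : Fin 3 → ℝ} (h : MEq θ θ') (hf : Fine θ') : Fine θ := by
  obtain ⟨s, h1, h2⟩ := hf
  exact ⟨s, Red.shift _ _ _ h h1, h2⟩

theorem Fine.neg {θ : Fin 3 → ℝ} (hf : Fine θ) : Fine (-θ) := by
  obtain ⟨s, h1, h2⟩ := hf
  refine ⟨_, h1.neg, fun x hx => ?_⟩
  rw [Multiset.mem_map] at hx
  obtain ⟨y, hy, rfl⟩ := hx
  exact (h2 y hy).neg

theorem fine_pos (a : ℝ) {b : ℝ} (h0 : 0 < b) (h1 : b < 1) : Fine (T3 a b) := by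
  have hr : 0 < (1 - b) / 2 := by linarith
  set δ : ℝ := min b ((1 - b) / 4) with hδ
  have hδ1 : δ ≤ b := min_le_left _ _
  have hδ2 : δ ≤ (1 - b) / 4 := min_le_right _ _
  have hδ0 : 0 < δ := lt_min h0 (by linarith)
  obtain ⟨M, n, ρ, -, hρ, hρr, he⟩ := rep a hr 0
  obtain ⟨s, hs, hg, -, -⟩ := peel (b0 := b) (δ := δ) (r := (1 - b) / 2) (v := 0) (η := 1)
    one_pos hδ1 hr (by linarith) (fun b' hb' => by
      obtain ⟨k1, k2⟩ := abs_lt.1 hb'
      exact V_T3_nonneg hr (by linarith) (by linarith)) n b ρ (by simpa using hδ0) hρ hρr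
  rw [← he] at hs
  have h2 := meq_T3 a b M 0
  rw [Int.cast_zero, mul_zero, add_zero] at h2
  exact ⟨s, Red.shift _ _ _ h2 hs, hg⟩

theorem meq_neg (a b : ℝ) : MEq (T3 a b) (-T3 (-a) (-b)) := by
  intro k
  fin_cases k
  · exact ⟨0, by simp [T3]⟩
  · exact ⟨0, by simp [T3]⟩
  · exact ⟨-1, by simp [T3]; ring⟩

theorem fine_neg (a : ℝ) {b : ℝ} (h0 : -1 < b) (h1 : b < 0) : Fine (T3 a b) :=
  Fine.shift (meq_neg a b) (fine_pos (-a) (by linarith) (by linarith)).neg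

theorem fine_of_sin (a : ℝ) {b : ℝ} (hb : ∀ n : ℤ, b ≠ n) : Fine (T3 a b) := by
  have h1 := abs_sub_round (b / 2)
  set m : ℤ := round (b / 2) with hm
  obtain ⟨h2, h3⟩ := abs_le.1 h1
  have h4 := meq_T3 a b 0 (-m)
  rw [Int.cast_zero, mul_zero, add_zero] at h4
  refine Fine.shift h4 ?_
  have e0 : b ≠ 2 * m := by
    have := hb (2 * m)
    push_cast at this
    exact this
  have e1 : b ≠ 2 * m + 1 := by
    have := hb (2 * m + 1)
    push_cast at this
    exact this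
  have e2 : b ≠ 2 * m - 1 := by
    have := hb (2 * m - 1)
    push_cast at this
    exact this
  push_cast
  rcases lt_or_gt_of_ne e0 with h | h
  · apply fine_neg
    · rcases (show (-1 : ℝ) ≤ b + 2 * -m by linarith).lt_or_eq with h5 | h5
      · exact h5
      · exfalso; apply e2; linarith
    · linarith
  · apply fine_pos
    · linarith
    · rcases (show b + 2 * -(m : ℝ) ≤ 1 by linarith).lt_or_eq with h5 | h5
      · exact h5
      · exfalso; apply e1; linarith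

theorem meq_negT3 (a b : ℝ) : MEq (-T3 a b) (T3 (-a) (-b)) := by
  intro k
  fin_cases k
  · exact ⟨0, by simp [T3]⟩
  · exact ⟨0, by simp [T3]⟩
  · exact ⟨1, by simp [T3]; ring⟩

theorem fine_negT3 (a : ℝ) {b : ℝ} (hb : ∀ n : ℤ, b ≠ n) : Fine (-T3 a b) := by
  refine Fine.shift (meq_negT3 a b) (fine_of_sin _ fun n hn => ?_)
  apply hb (-n)
  push_cast
  linarith

/-- a real number in an interval which avoids two cosets of the integers -/
theorem avoid (c : ℝ) {u w : ℝ} (h : u < w) : ∃ e, u < e ∧ e < w ∧ (∀ n : ℤ, e ≠ n) ∧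
    ∀ n : ℤ, c + e ≠ n := by
  have h1 : ((Set.range fun n : ℤ => (n : ℝ)) ∪ Set.range fun n : ℤ => (n : ℝ) - c).Countable :=
    (Set.countable_range _).union (Set.countable_range _)
  obtain ⟨e, he, h2⟩ := (h1.dense_compl ℝ).exists_mem_open isOpen_Ioo
    (Set.nonempty_Ioo.2 h)
  refine ⟨e, h2.1, h2.2, fun n hn => he (Or.inl ⟨n, hn.symm⟩), fun n hn => he (Or.inr ⟨n, ?_⟩)⟩
  show (n : ℝ) - c = e
  linarith

theorem fine_all (a b : ℝ) : Fine (T3 a b) := by
  obtain ⟨e, -, -, h1, h2⟩ := avoid b (zero_lt_one)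
  obtain ⟨s0, r0, g0⟩ := fine_of_sin (0 + e) h2
  obtain ⟨s1, r1, g1⟩ := fine_of_sin (a - 2 * e + e) h2
  obtain ⟨s2, r2, g2⟩ := fine_negT3 (1 - 0 - e) h1
  obtain ⟨s3, r3, g3⟩ := fine_negT3 (1 - (a - 2 * e) - e) h1
  have key := red_move 0 (a - 2 * e) e e b r0 r1 r2 r3
  have : 0 + (a - 2 * e) + e + e = a := by ring
  rw [this] at key
  refine ⟨_, key, fun x hx => ?_⟩
  rw [Multiset.mem_add, Multiset.mem_add, Multiset.mem_add] at hx
  rcases hx with ((hx | hx) | hx) | hx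
  · exact g0 x hx
  · exact g1 x hx
  · exact g2 x hx
  · exact g3 x hx

/-- the row condition -/
def RowOk (θ : Fin 3 → ℝ) : Prop := Ev (θ 0 + θ 1 + θ 2 - 1)

theorem meq_row {θ : Fin 3 → ℝ} (h : RowOk θ) : MEq θ (T3 (θ 0) (θ 1)) := by
  intro k
  fin_cases k
  · exact ⟨0, by simp [T3]⟩
  · exact ⟨0, by simp [T3]⟩
  · refine h.neg.congr ?_
    show -(θ 0 + θ 1 + θ 2 - 1) = 1 - θ 0 - θ 1 - θ 2
    ring

theorem fine_row {θ : Fin 3 → ℝ} (h : RowOk θ) : Fine θ :=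
  Fine.shift (meq_row h) (fine_all _ _)

/-- blowing up a tetrahedron -/
theorem blow (a b : ℝ) {η : ℝ} (hη : 0 < η) : ∃ (B : ℕ) (A : ℝ), ∀ N : ℕ, ∃ n, N ≤ n ∧
    ∃ s, Red (T3 a b) s ∧ (∀ x ∈ s, Good x) ∧ s.card = 3 * n + B ∧
      n * (v3 - η) + A ≤ (s.map V).sum := by
  have hV : V (T3 (1 / 3) (1 / 3)) = v3 := by
    show lob (π * (1 / 3)) + lob (π * (1 / 3)) + lob (π * (1 - 1 / 3 - 1 / 3)) = 3 * lob (π / 3)
    have h1 : π * (1 / 3) = π / 3 := by ring
    have h2 : π * (1 - 1 / 3 - 1 / 3) = π / 3 := by ring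
    rw [h1, h2]
    ring
  have hc : Continuous fun b : ℝ => V (T3 (1 / 3) b) :=
    continuous_V_T3 (by fun_prop) (by fun_prop)
  have h1 : ∀ᶠ b' in 𝓝 (1 / 3 : ℝ), v3 - η / 2 < V (T3 (1 / 3) b') := by
    apply continuousAt_const.eventually_lt hc.continuousAt
    rw [hV]
    linarith
  obtain ⟨δ0, hδ0, hd⟩ := Metric.eventually_nhds_iff.1 h1
  set δ : ℝ := min δ0 (1 / 3) with hδ
  have hδ1 : δ ≤ δ0 := min_le_left _ _
  have hδ2 : δ ≤ 1 / 3 := min_le_right _ _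
  have hδp : 0 < δ := lt_min hδ0 (by norm_num)
  obtain ⟨e, he1, he2, h2, h3⟩ := avoid b (u := 1 / 3 - b - δ) (w := 1 / 3 - b + δ) (by linarith)
  have hb : |b + e - 1 / 3| < δ := by
    rw [abs_lt]
    constructor <;> linarith
  obtain ⟨s1, r1, g1⟩ := fine_of_sin (a - 2 * e + e) h3
  obtain ⟨s2, r2, g2⟩ := fine_negT3 (1 - 0 - e) h2
  obtain ⟨s3, r3, g3⟩ := fine_negT3 (1 - (a - 2 * e) - e) h2
  refine ⟨1 + s1.card + s2.card + s3.card, (s1.map V).sum + (s2.map V).sum + (s3.map V).sum,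
    fun N => ?_⟩
  obtain ⟨M, n, ρ, hn, hρ, hρr, hM⟩ := rep (0 + e) (r := 1 / 3) (by norm_num) N
  obtain ⟨s0, r0, g0, c0, v0⟩ := peel (b0 := 1 / 3) (δ := δ) (r := 1 / 3) (v := v3 - η / 2)
    (η := η / 2) (half_pos hη) hδ2 (by norm_num) (by linarith) (fun b' hb' => by
      apply le_of_lt
      apply hd
      rw [Real.dist_eq]
      linarith) n (b + e) ρ hb hρ hρr
  rw [← hM] at r0
  have h4 := meq_T3 (0 + e) (b + e) M 0
  rw [Int.cast_zero, mul_zero, add_zero] at h4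
  have r0' := Red.shift _ _ _ h4 r0
  have key := red_move 0 (a - 2 * e) e e b r0' r1 r2 r3
  have : 0 + (a - 2 * e) + e + e = a := by ring
  rw [this] at key
  refine ⟨n, hn, s0 + s1 + s2 + s3, key, fun x hx => ?_, ?_, ?_⟩
  · rw [Multiset.mem_add, Multiset.mem_add, Multiset.mem_add] at hx
    rcases hx with ((hx | hx) | hx) | hx
    · exact g0 x hx
    · exact g1 x hx
    · exact g2 x hx
    · exact g3 x hx
  · rw [Multiset.card_add, Multiset.card_add, Multiset.card_add, c0]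
    ring
  · rw [Multiset.map_add, Multiset.map_add, Multiset.map_add, Multiset.sum_add, Multiset.sum_add,
      Multiset.sum_add]
    have h5 : (n : ℝ) * (v3 - η / 2 - η / 2) = n * (v3 - η) := by ring
    rw [h5] at v0
    linarith

theorem blow_row {θ : Fin 3 → ℝ} (h : RowOk θ) {η : ℝ} (hη : 0 < η) :
    ∃ (B : ℕ) (A : ℝ), ∀ N : ℕ, ∃ n, N ≤ n ∧
    ∃ s, Red θ s ∧ (∀ x ∈ s, Good x) ∧ s.card = 3 * n + B ∧
      n * (v3 - η) + A ≤ (s.map V).sum := by
  obtain ⟨B, A, hBA⟩ := blow (θ 0) (θ 1) hη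
  refine ⟨B, A, fun N => ?_⟩
  obtain ⟨n, hn, s, h1, h2⟩ := hBA N
  exact ⟨n, hn, s, Red.shift _ _ _ (meq_row h) h1, h2⟩

/-! ### realisation -/

/-- `Rz T s`: some iterated stellar subdivision of `T` has an angle structure whose multiset of
triples is `s`. -/
def Rz (T : Triangulation) (s : Multiset (Fin 3 → ℝ)) : Prop :=
  ∃ (T' : Triangulation) (a : T'.Tet → Fin 3 → ℝ), Stellar T T' ∧ IsAngle T' a ∧
    ∑ t, ({a t} : Multiset (Fin 3 → ℝ)) = s

theorem IsAngle.congr {T : Triangulation} {a a' : T.Tet → Fin 3 → ℝ} (h : IsAngle T a)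
    (h' : ∀ t, MEq (a t) (a' t)) : IsAngle T a' := by
  refine ⟨fun t => ?_, fun y hy => ?_⟩
  · refine ((h.row t).add (((h' t 0).add (h' t 1)).add (h' t 2))).congr ?_
    ring
  · have h1 : ∀ t, Ev (ev (y t) (a' t) - ev (y t) (a t)) := by
      intro t
      refine ((((h' t 0).mul (y t 0 1 + y t 2 3)).add ((h' t 1).mul (y t 0 2 + y t 1 3))).add
        ((h' t 2).mul (y t 0 3 + y t 1 2))).congr ?_
      unfold ev
      ring
    have h2 : Ev (∑ t, (ev (y t) (a' t) - ev (y t) (a t))) := by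
      classical
      induction (Finset.univ : Finset T.Tet) using Finset.induction_on with
      | empty => simpa using Ev.zero
      | insert t s ht ih =>
        rw [Finset.sum_insert ht]
        exact (h1 t).add ih
    refine ((h.edge y hy).add h2).congr ?_
    rw [Finset.sum_sub_distrib]
    ring

open Classical in
theorem Rz.shift {T : Triangulation} {θ θ' : Fin 3 → ℝ} {u : Multiset (Fin 3 → ℝ)}
    (h : Rz T ({θ} + u)) (hm : MEq θ θ') : Rz T ({θ'} + u) := by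
  obtain ⟨T', a, h1, h2, h3⟩ := h
  have h4 : θ ∈ ∑ t, ({a t} : Multiset (Fin 3 → ℝ)) := by
    rw [h3]
    simp
  rw [Multiset.mem_sum] at h4
  obtain ⟨t0, -, h5⟩ := h4
  rw [Multiset.mem_singleton] at h5
  subst h5
  refine ⟨T', Function.update a t0 θ', h1, h2.congr fun t => ?_, ?_⟩
  · by_cases h : t = t0
    · subst h
      rw [Function.update_self]
      exact hm
    · rw [Function.update_of_ne h]
      intro k
      exact ⟨0, by simp⟩
  · rw [sum_split T' t0] at h3 ⊢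
    rw [add_comm {a t0} u, add_left_inj] at h3
    rw [Function.update_self, add_comm {θ'} u, ← h3]
    congr 1
    refine Finset.sum_congr rfl fun t _ => ?_
    rw [Function.update_of_ne t.2]

open Classical in
theorem Rz.cone {T : Triangulation} {θ : Fin 3 → ℝ} {u : Multiset (Fin 3 → ℝ)}
    (h : Rz T ({θ} + u)) {α : Fin 4 → Fin 3 → ℝ} (hc : Compat θ α) :
    Rz T ({α 0} + ({α 1} + ({α 2} + ({α 3} + u)))) := by
  obtain ⟨T', a, h1, h2, h3⟩ := h
  have h4 : θ ∈ ∑ t, ({a t} : Multiset (Fin 3 → ℝ)) := by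
    rw [h3]
    simp
  rw [Multiset.mem_sum] at h4
  obtain ⟨t0, -, h5⟩ := h4
  rw [Multiset.mem_singleton] at h5
  subst h5
  refine ⟨GN.cone T' t0, up (t0 := t0) a α, Stellar.step _ _ h1, up_angle h2 hc, ?_⟩
  rw [sum_split T' t0] at h3
  rw [add_comm {a t0} u, add_left_inj] at h3
  rw [cone_sum, Fin.sum_univ_four]
  have h6 : ∑ t : {t : T'.Tet // t ≠ t0},
      ({up (t0 := t0) a α (Sum.inl t)} : Multiset (Fin 3 → ℝ)) = u := h3
  rw [h6]
  show u + ({α 0} + {α 1} + {α 2} + {α 3}) = _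
  abel

theorem Red.rz {T : Triangulation} {θ : Fin 3 → ℝ} {s : Multiset (Fin 3 → ℝ)} (h : Red θ s) :
    ∀ u, Rz T ({θ} + u) → Rz T (s + u) := by
  induction h with
  | refl θ => exact fun u hu => hu
  | shift θ θ' s h1 _ ih => exact fun u hu => ih u (hu.shift h1)
  | cone θ α s0 s1 s2 s3 hc _ _ _ _ i0 i1 i2 i3 =>
    intro u hu
    have k0 := i0 _ (hu.cone hc)
    rw [add_left_comm] at k0
    have k1 := i1 _ k0
    have e1 : s1 + (s0 + ({α 2} + ({α 3} + u))) = {α 2} + (s0 + s1 + ({α 3} + u)) := by abel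
    rw [e1] at k1
    have k2 := i2 _ k1
    have e2 : s2 + (s0 + s1 + ({α 3} + u)) = {α 3} + (s0 + s1 + s2 + u) := by abel
    rw [e2] at k2
    have k3 := i3 _ k2
    have e3 : s3 + (s0 + s1 + s2 + u) = s0 + s1 + s2 + s3 + u := by abel
    rw [e3] at k3
    exact k3

/-- all tetrahedra of a multiset can be made good -/
theorem process (T : Triangulation) (u : Multiset (Fin 3 → ℝ)) : (∀ θ ∈ u, RowOk θ) →
    ∃ u', (∀ x ∈ u', Good x) ∧ ∀ w, Rz T (u + w) → Rz T (u' + w) := by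
  induction u using Multiset.induction_on with
  | empty =>
    intro _
    exact ⟨0, fun x hx => absurd hx (Multiset.notMem_zero x), fun w hw => hw⟩
  | cons θ u ih =>
    intro hu
    obtain ⟨u', h1, h2⟩ := ih fun x hx => hu x (Multiset.mem_cons_of_mem hx)
    obtain ⟨s, h3, h4⟩ := fine_row (hu θ (Multiset.mem_cons_self θ u))
    refine ⟨s + u', fun x hx => ?_, fun w hw => ?_⟩
    · rcases Multiset.mem_add.1 hx with h | h
      · exact h4 x h
      · exact h1 x h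
    · rw [← Multiset.singleton_add, add_assoc] at hw
      have h5 := h3.rz _ hw
      rw [add_left_comm] at h5
      have h6 := h2 _ h5
      rw [add_left_comm, ← add_assoc] at h6
      exact h6

/-- the outcome of the game -/
theorem game (T : Triangulation) (t1 : T.Tet) {η : ℝ} (hη : 0 < η) : ∃ (B : ℕ) (A : ℝ),
    ∀ N : ℕ, ∃ n, N ≤ n ∧ ∃ s, Rz T s ∧ (∀ x ∈ s, Good x) ∧ s.card = 3 * n + B ∧
      n * (v3 - η) + A ≤ (s.map V).sum := by
  classical
  obtain ⟨a, ha⟩ := exists_angle T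
  have h0 : Rz T (∑ t, ({a t} : Multiset (Fin 3 → ℝ))) := ⟨T, a, Stellar.refl, ha, rfl⟩
  rw [sum_split T t1] at h0
  obtain ⟨u', h1, h2⟩ := process T (∑ t : {t : T.Tet // t ≠ t1}, ({a t.1} : Multiset _)) (by
    intro θ hθ
    rw [Multiset.mem_sum] at hθ
    obtain ⟨t, -, ht⟩ := hθ
    rw [Multiset.mem_singleton] at ht
    rw [ht]
    exact ha.row t.1)
  have h3 := h2 _ h0
  rw [add_comm] at h3
  obtain ⟨B, A, hBA⟩ := blow_row (ha.row t1) hη
  refine ⟨B + u'.card, A + (u'.map V).sum, fun N => ?_⟩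
  obtain ⟨n, hn, s, hs, hg, hc, hv⟩ := hBA N
  refine ⟨n, hn, s + u', hs.rz _ h3, fun x hx => ?_, ?_, ?_⟩
  · rcases Multiset.mem_add.1 hx with h | h
    · exact hg x h
    · exact h1 x h
  · rw [Multiset.card_add, hc]
    ring
  · rw [Multiset.map_add, Multiset.sum_add]
    linarith

theorem sum_V {T : Triangulation} (a : T.Tet → Fin 3 → ℝ) :
    ((∑ t, ({a t} : Multiset (Fin 3 → ℝ))).map V).sum = ∑ t, V (a t) := by
  classical
  induction (Finset.univ : Finset T.Tet) using Finset.induction_on with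
  | empty => simp
  | insert t s ht ih =>
    rw [Finset.sum_insert ht, Finset.sum_insert ht, Multiset.map_add, Multiset.sum_add, ih]
    simp

/-- Iterated stellar subdivisions with large volume. -/
theorem large_volume (T : Triangulation) (t1 : T.Tet) {ε : ℝ} (hε : 0 < ε) (K : ℝ) :
    ∃ T' : Triangulation, Stellar T T' ∧ K ≤ Fintype.card T'.Tet ∧ ∃ z ∈ T'.W,
      (∀ q, (z q).im ≠ 0) ∧ K < T'.vol z ∧
        (v3 / 3 - ε) * Fintype.card T'.Tet < T'.vol z := by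
  have hv := v3_pos
  set η : ℝ := min ε (v3 / 2) with hη
  have hη0 : 0 < η := lt_min hε (by linarith)
  have hη1 : η ≤ ε := min_le_left _ _
  have hη2 : η ≤ v3 / 2 := min_le_right _ _
  obtain ⟨B, A, hBA⟩ := game T t1 hη0
  obtain ⟨N, hN⟩ := exists_nat_gt (max (max K 0) (max ((K - A) / (v3 / 2))
    (((v3 / 3 - ε) * B - A) / (2 * ε))))
  obtain ⟨n, hn, s, ⟨T', a, h1, h2, h3⟩, hg, hc, hvol⟩ := hBA N
  have hn' : (N : ℝ) ≤ n := by exact_mod_cast hn
  have hcard : Fintype.card T'.Tet = 3 * n + B := by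
    rw [← hc, ← h3, Multiset.card_sum]
    simp
  have hgood : ∀ t, Good (a t) := by
    intro t
    apply hg
    rw [← h3, Multiset.mem_sum]
    exact ⟨t, Finset.mem_univ t, by simp⟩
  obtain ⟨z, hz, hz1, hz2⟩ := exists_mem_W T' h2 hgood
  rw [← h3, sum_V, ← hz2] at hvol
  have m1 : max K 0 < n := lt_of_le_of_lt (le_max_left _ _) (lt_of_lt_of_le hN hn')
  have m2 := lt_of_le_of_lt (le_max_right _ _) (lt_of_lt_of_le hN hn')
  have m3 : (K - A) / (v3 / 2) < n := lt_of_le_of_lt (le_max_left _ _) m2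
  have m4 : ((v3 / 3 - ε) * B - A) / (2 * ε) < n := lt_of_le_of_lt (le_max_right _ _) m2
  have m5 : K < n := lt_of_le_of_lt (le_max_left _ _) m1
  rw [div_lt_iff₀ (by linarith)] at m3 m4
  have hn0 : (0 : ℝ) ≤ n := Nat.cast_nonneg n
  refine ⟨T', h1, ?_, z, hz, hz1, ?_, ?_⟩
  · rw [hcard]
    push_cast
    have : (0 : ℝ) ≤ B := Nat.cast_nonneg B
    linarith
  · have : (n : ℝ) * (v3 / 2) ≤ n * (v3 - η) := mul_le_mul_of_nonneg_left (by linarith) hn0
    linarith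
  · rw [hcard]
    push_cast
    have : (n : ℝ) * (v3 - ε) ≤ n * (v3 - η) := mul_le_mul_of_nonneg_left (by linarith) hn0
    nlinarith

end Pool.Agent.KS6_92.GN
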