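import Pool.Agent.KS6_92.GN.Homeo

/-!
Singular chains: permutations of the vertices, the cone subdivision of a simplex, and the
fundamental cycle of a triangulation.
-/

set_option autoImplicit false

namespace Pool.Agent.KS6_92.GN

open Pool.Agent.H297R3.Luo Equiv

/-- the affine map of simplices given by the images of the vertices -/
noncomputable def am {k n : ℕ} (w : Fin (k + 1) → Fin (n + 1)) :
    C(stdSimplex ℝ (Fin (k + 1)), stdSimplex ℝ (Fin (n + 1))) :=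
  ⟨stdSimplex.map w, stdSimplex.continuous_map _⟩

theorem am_comp {k n m : ℕ} (w : Fin (n + 1) → Fin (m + 1)) (u : Fin (k + 1) → Fin (n + 1)) :
    (am w).comp (am u) = am (w ∘ u) :=
  ContinuousMap.ext fun _ => stdSimplex.map_comp_apply _ _ _

theorem face_eq {k : ℕ} (i : Fin (k + 2)) : face i = am (n := k + 1) i.succAbove := rfl

theorem am_face {k n : ℕ} (w : Fin (k + 2) → Fin (n + 1)) (i : Fin (k + 2)) :
    (am w).comp (face i) = am (w ∘ i.succAbove) := am_comp _ _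

theorem am_id {k : ℕ} : am (id : Fin (k + 1) → Fin (k + 1)) = ContinuousMap.id _ :=
  ContinuousMap.ext fun x => stdSimplex.map_id_apply x

theorem am_apply {k n : ℕ} (w : Fin (k + 1) → Fin (n + 1)) (x : stdSimplex ℝ (Fin (k + 1)))
    (j : Fin (n + 1)) : am w x j = ∑ l, if w l = j then x l else 0 := by
  show FunOnFinite.linearMap ℝ ℝ w x j = _
  rw [FunOnFinite.linearMap_apply_apply, Finset.sum_filter]

theorem am_zero {k n : ℕ} (w : Fin (k + 1) → Fin (n + 1)) (x : stdSimplex ℝ (Fin (k + 1)))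
    {j : Fin (n + 1)} (h : ∀ l, w l ≠ j) : am w x j = 0 := by
  rw [am_apply]
  apply Finset.sum_eq_zero
  intro l _
  rw [if_neg (h l)]

theorem am_perm (π : Perm (Fin 4)) (x : D3) (v : Fin 4) : am (k := 3) (n := 3) π x (π v) = x v := by
  rw [am_apply, Finset.sum_eq_single v]
  · rw [if_pos rfl]
  · intro l _ hl
    rw [if_neg]
    exact fun h => hl (π.injective h)
  · intro h
    exact absurd (Finset.mem_univ v) h

section

variable {X : Type} [TopologicalSpace X]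

/-- boundaries plus chains in a subset -/
noncomputable def relSub (S : Set X) : Submodule ℝ (Chain 3 X) :=
  LinearMap.range (bdry 3) ⊔
    Finsupp.supported ℝ ℝ {σ : C(stdSimplex ℝ (Fin (3 + 1)), X) | Set.range σ ⊆ S}

theorem bdry_mem {S : Set X} (b : Chain 4 X) : bdry 3 b ∈ relSub S :=
  Submodule.mem_sup_left ⟨b, rfl⟩

theorem single_mem {S : Set X} {σ : C(stdSimplex ℝ (Fin (3 + 1)), X)} (h : ∀ x, σ x ∈ S)
    (a : ℝ) : (Finsupp.single σ a : Chain 3 X) ∈ relSub S := by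
  apply Submodule.mem_sup_right
  apply Finsupp.single_mem_supported
  rintro _ ⟨x, rfl⟩
  exact h x

theorem mem_relSub {S : Set X} {c : Chain 3 X} : c ∈ relSub S ↔
    ∃ (b : Chain 4 X) (r : Chain 3 X), (∀ σ ∈ r.support, Set.range σ ⊆ S) ∧
      c = bdry 3 b + r := by
  unfold relSub
  rw [Submodule.mem_sup]
  constructor
  · rintro ⟨_, ⟨b, rfl⟩, r, hr, h⟩
    rw [Finsupp.mem_supported] at hr
    exact ⟨b, r, fun σ hσ => hr hσ, h.symm⟩
  · rintro ⟨b, r, hr, h⟩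
    refine ⟨_, ⟨b, rfl⟩, r, ?_, h.symm⟩
    rw [Finsupp.mem_supported]
    exact fun σ hσ => hr σ hσ

/-! ### permutations of the vertices -/

variable {S : Set X} {σ : C(D3, X)}

theorem deg_mem (hS : ∀ x : D3, (∃ f, x f = 0) → σ x ∈ S) (w : Fin 4 → Fin 4)
    (hw : ¬ Function.Injective w) (a : ℝ) :
    (Finsupp.single (σ.comp (am (k := 3) (n := 3) w)) a : Chain 3 X) ∈ relSub S := by
  have h1 : ¬ Function.Surjective w := fun h => hw (Finite.injective_iff_surjective.2 h)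
  unfold Function.Surjective at h1
  push Not at h1
  obtain ⟨f, hf⟩ := h1
  apply single_mem
  intro x
  exact hS _ ⟨f, am_zero w x hf⟩

theorem bdry_am (σ : C(D3, X)) (w : Fin 5 → Fin 4) :
    bdry 3 (Finsupp.single (σ.comp (am (k := 4) (n := 3) w)) 1) =
      ∑ i : Fin 5, ((-1 : ℝ) ^ (i : ℕ)) • (Finsupp.single
        (σ.comp (am (k := 3) (n := 3) (w ∘ i.succAbove))) 1 : Chain 3 X) := by
  rw [bdry_single]
  refine Finset.sum_congr rfl fun i _ => ?_
  rw [ContinuousMap.comp_assoc, am_face]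

theorem alg0 {M : Type*} [AddCommGroup M] [Module ℝ M] (p : Submodule ℝ M) {c0 c1 c2 c3 c4 : M}
    (h : (1 : ℝ) • c0 + (-1 : ℝ) • c1 + (1 : ℝ) • c2 + (-1 : ℝ) • c3 + (1 : ℝ) • c4 ∈ p)
    (h1 : c1 ∈ p) (h3 : c3 ∈ p) (h4 : c4 ∈ p) : c2 + c0 ∈ p := by
  have key := p.sub_mem (p.add_mem (p.add_mem h h1) h3) h4
  convert key using 1
  module

theorem alg1 {M : Type*} [AddCommGroup M] [Module ℝ M] (p : Submodule ℝ M) {c0 c1 c2 c3 c4 : M}
    (h : (1 : ℝ) • c0 + (-1 : ℝ) • c1 + (1 : ℝ) • c2 + (-1 : ℝ) • c3 + (1 : ℝ) • c4 ∈ p)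
    (h0 : c0 ∈ p) (h2 : c2 ∈ p) (h4 : c4 ∈ p) : c3 + c1 ∈ p := by
  have key := p.sub_mem (p.add_mem (p.add_mem h0 h2) h4) h
  convert key using 1
  module

theorem alg2 {M : Type*} [AddCommGroup M] [Module ℝ M] (p : Submodule ℝ M) {c0 c1 c2 c3 c4 : M}
    (h : (1 : ℝ) • c0 + (-1 : ℝ) • c1 + (1 : ℝ) • c2 + (-1 : ℝ) • c3 + (1 : ℝ) • c4 ∈ p)
    (h0 : c0 ∈ p) (h1 : c1 ∈ p) (h3 : c3 ∈ p) : c4 + c2 ∈ p := by
  have key := p.add_mem (p.add_mem (p.sub_mem h h0) h1) h3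
  convert key using 1
  module

theorem swap_mem (hS : ∀ x : D3, (∃ f, x f = 0) → σ x ∈ S) (w : Fin 4 → Fin 4) (i : Fin 3) :
    (Finsupp.single (σ.comp (am (k := 3) (n := 3) w)) 1 +
      Finsupp.single (σ.comp (am (k := 3) (n := 3) (w ∘ swap i.castSucc i.succ))) 1 :
      Chain 3 X) ∈ relSub S := by
  have e0 : ((-1 : ℝ) ^ ((0 : Fin 5) : ℕ)) = 1 := by norm_num
  have e1 : ((-1 : ℝ) ^ ((1 : Fin 5) : ℕ)) = -1 := by norm_num
  have e2 : ((-1 : ℝ) ^ ((2 : Fin 5) : ℕ)) = 1 := by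
    rw [show ((2 : Fin 5) : ℕ) = 2 from rfl]; norm_num
  have e3 : ((-1 : ℝ) ^ ((3 : Fin 5) : ℕ)) = -1 := by
    rw [show ((3 : Fin 5) : ℕ) = 3 from rfl]; norm_num
  have e4 : ((-1 : ℝ) ^ ((4 : Fin 5) : ℕ)) = 1 := by
    rw [show ((4 : Fin 5) : ℕ) = 4 from rfl]; norm_num
  have inj : ∀ (u : Fin 4 → Fin 4) (k l : Fin 4), k ≠ l → u k = u l → ¬ Function.Injective u :=
    fun u k l hkl h hi => hkl (hi h)
  have hw : w = ![w 0, w 1, w 2, w 3] := by
    funext l; fin_cases l <;> rfl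
  fin_cases i
  · -- [a, b, a, c, d]
    have hb := bdry_am σ ![w 0, w 1, w 0, w 2, w 3]
    rw [Fin.sum_univ_five, e0, e1, e2, e3, e4] at hb
    have f0 : (![w 0, w 1, w 0, w 2, w 3] : Fin 5 → Fin 4) ∘ Fin.succAbove (0 : Fin 5) =
        w ∘ swap (Fin.castSucc 0) (Fin.succ 0) := by
      funext l; fin_cases l <;> rfl
    have f2 : (![w 0, w 1, w 0, w 2, w 3] : Fin 5 → Fin 4) ∘ Fin.succAbove (2 : Fin 5) = w := by
      funext l; fin_cases l <;> rfl
    have d1 := deg_mem hS ((![w 0, w 1, w 0, w 2, w 3] : Fin 5 → Fin 4) ∘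
      Fin.succAbove (1 : Fin 5)) (inj _ 0 1 (by decide) rfl) 1
    have d3 := deg_mem hS ((![w 0, w 1, w 0, w 2, w 3] : Fin 5 → Fin 4) ∘
      Fin.succAbove (3 : Fin 5)) (inj _ 0 2 (by decide) rfl) 1
    have d4 := deg_mem hS ((![w 0, w 1, w 0, w 2, w 3] : Fin 5 → Fin 4) ∘
      Fin.succAbove (4 : Fin 5)) (inj _ 0 2 (by decide) rfl) 1
    have hm := bdry_mem (S := S) (Finsupp.single
      (σ.comp (am (k := 4) (n := 3) ![w 0, w 1, w 0, w 2, w 3])) 1)
    rw [hb, f0, f2] at hm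
    exact alg0 _ hm d1 d3 d4
  · -- [a, b, c, b, d]
    have hb := bdry_am σ ![w 0, w 1, w 2, w 1, w 3]
    rw [Fin.sum_univ_five, e0, e1, e2, e3, e4] at hb
    have f1 : (![w 0, w 1, w 2, w 1, w 3] : Fin 5 → Fin 4) ∘ Fin.succAbove (1 : Fin 5) =
        w ∘ swap (Fin.castSucc 1) (Fin.succ 1) := by
      funext l; fin_cases l <;> rfl
    have f3 : (![w 0, w 1, w 2, w 1, w 3] : Fin 5 → Fin 4) ∘ Fin.succAbove (3 : Fin 5) = w := by
      funext l; fin_cases l <;> rfl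
    have d0 := deg_mem hS ((![w 0, w 1, w 2, w 1, w 3] : Fin 5 → Fin 4) ∘
      Fin.succAbove (0 : Fin 5)) (inj _ 0 2 (by decide) rfl) 1
    have d2 := deg_mem hS ((![w 0, w 1, w 2, w 1, w 3] : Fin 5 → Fin 4) ∘
      Fin.succAbove (2 : Fin 5)) (inj _ 1 2 (by decide) rfl) 1
    have d4 := deg_mem hS ((![w 0, w 1, w 2, w 1, w 3] : Fin 5 → Fin 4) ∘
      Fin.succAbove (4 : Fin 5)) (inj _ 1 3 (by decide) rfl) 1
    have hm := bdry_mem (S := S) (Finsupp.single
      (σ.comp (am (k := 4) (n := 3) ![w 0, w 1, w 2, w 1, w 3])) 1)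
    rw [hb, f1, f3] at hm
    exact alg1 _ hm d0 d2 d4
  · -- [a, b, c, d, c]
    have hb := bdry_am σ ![w 0, w 1, w 2, w 3, w 2]
    rw [Fin.sum_univ_five, e0, e1, e2, e3, e4] at hb
    have f2 : (![w 0, w 1, w 2, w 3, w 2] : Fin 5 → Fin 4) ∘ Fin.succAbove (2 : Fin 5) =
        w ∘ swap (Fin.castSucc 2) (Fin.succ 2) := by
      funext l; fin_cases l <;> rfl
    have f4 : (![w 0, w 1, w 2, w 3, w 2] : Fin 5 → Fin 4) ∘ Fin.succAbove (4 : Fin 5) = w := by
      funext l; fin_cases l <;> rfl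
    have d0 := deg_mem hS ((![w 0, w 1, w 2, w 3, w 2] : Fin 5 → Fin 4) ∘
      Fin.succAbove (0 : Fin 5)) (inj _ 1 3 (by decide) rfl) 1
    have d1 := deg_mem hS ((![w 0, w 1, w 2, w 3, w 2] : Fin 5 → Fin 4) ∘
      Fin.succAbove (1 : Fin 5)) (inj _ 1 3 (by decide) rfl) 1
    have d3 := deg_mem hS ((![w 0, w 1, w 2, w 3, w 2] : Fin 5 → Fin 4) ∘
      Fin.succAbove (3 : Fin 5)) (inj _ 2 3 (by decide) rfl) 1
    have hm := bdry_mem (S := S) (Finsupp.single
      (σ.comp (am (k := 4) (n := 3) ![w 0, w 1, w 2, w 3, w 2])) 1)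
    rw [hb, f2, f4] at hm
    exact alg2 _ hm d0 d1 d3

/-- the sign of a permutation as a real number -/
noncomputable def sg (π : Perm (Fin 4)) : ℝ := ((Perm.sign π : ℤ) : ℝ)

theorem sg_one : sg 1 = 1 := by
  unfold sg
  simp

theorem sg_mul (π ρ : Perm (Fin 4)) : sg (π * ρ) = sg π * sg ρ := by
  unfold sg
  rw [Perm.sign_mul]
  push_cast
  ring

theorem sg_swap {i j : Fin 4} (h : i ≠ j) : sg (swap i j) = -1 := by
  unfold sg
  rw [Perm.sign_swap h]
  simp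

theorem sg_sq (π : Perm (Fin 4)) : sg π * sg π = 1 := by
  unfold sg
  rcases Int.units_eq_one_or (Perm.sign π) with h | h <;> rw [h] <;> norm_num

theorem abs_sg (π : Perm (Fin 4)) : |sg π| = 1 := by
  unfold sg
  rcases Int.units_eq_one_or (Perm.sign π) with h | h <;> rw [h] <;> norm_num

theorem perm_mem (hS : ∀ x : D3, (∃ f, x f = 0) → σ x ∈ S) (π : Perm (Fin 4)) :
    (Finsupp.single (σ.comp (am (k := 3) (n := 3) π)) 1 - sg π • Finsupp.single σ 1 :
      Chain 3 X) ∈ relSub S := by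
  have hπ : π ∈ Submonoid.closure (Set.range fun i : Fin 3 ↦ swap i.castSucc i.succ) := by
    rw [Equiv.Perm.mclosure_swap_castSucc_succ]
    trivial
  induction hπ using Submonoid.closure_induction_right with
  | one =>
    have h : σ.comp (am (k := 3) (n := 3) (1 : Perm (Fin 4))) = σ := by
      have : am (k := 3) (n := 3) (1 : Perm (Fin 4)) = ContinuousMap.id _ := am_id
      rw [this, ContinuousMap.comp_id]
    rw [h, sg_one, one_smul, sub_self]
    exact Submodule.zero_mem _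
  | mul_right π _ y hy ih =>
    obtain ⟨i, rfl⟩ := hy
    have h1 := swap_mem hS π i
    have h2 := (relSub S).sub_mem h1 ih
    have h3 : i.castSucc ≠ i.succ := (Fin.castSucc_lt_succ).ne
    have h4 : sg (π * swap i.castSucc i.succ) = - sg π := by
      rw [sg_mul, sg_swap h3]
      ring
    rw [h4]
    convert h2 using 1
    rw [Perm.coe_mul]
    module

end

end Pool.Agent.KS6_92.GN
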