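import Pool.Agent.KS6_92.GN.Hom

/-!
The fundamental cycle of a triangulation, and the Gromov norm under stellar subdivision.
-/

set_option autoImplicit false

namespace Pool.Agent.KS6_92.GN

open Pool.Agent.H297R3.Luo Equiv

/-! ### the cone subdivision of a simplex -/

/-- the affine map of the 4-simplex onto the 3-simplex which sends the vertex `0` to the
barycentre and the vertex `k + 1` to the vertex `k` -/
noncomputable def afun (y : Fin 5 → ℝ) : Fin 4 → ℝ := fun k => y k.succ + y 0 / 4

theorem afun_mem {y : Fin 5 → ℝ} (hy : y ∈ stdSimplex ℝ (Fin 5)) :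
    afun y ∈ stdSimplex ℝ (Fin 4) := by
  obtain ⟨h1, h2⟩ := hy
  constructor
  · intro k
    have a1 := h1 k.succ
    have a2 := h1 0
    unfold afun
    linarith
  · rw [Fin.sum_univ_five] at h2
    rw [Fin.sum_univ_four]
    show (y 1 + y 0 / 4) + (y 2 + y 0 / 4) + (y 3 + y 0 / 4) + (y 4 + y 0 / 4) = 1
    linarith

/-- the affine map of the 4-simplex onto the 3-simplex -/
noncomputable def amap : C(stdSimplex ℝ (Fin 5), D3) where
  toFun y := ⟨afun y, afun_mem y.2⟩
  continuous_toFun := by
    apply Continuous.subtype_mk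
    refine continuous_pi fun k => ?_
    have h : ∀ j : Fin 5, Continuous fun x : stdSimplex ℝ (Fin 5) => (x : Fin 5 → ℝ) j :=
      fun j => (continuous_apply j).comp continuous_subtype_val
    exact (h k.succ).add ((h 0).div_const 4)

theorem amap_apply (y : stdSimplex ℝ (Fin 5)) (k : Fin 4) : amap y k = y k.succ + y 0 / 4 := rfl

/-- the orders of the vertices -/
def ww : Fin 4 → Perm (Fin 4) :=
  ![1, swap 0 1, swap 1 2 * swap 0 1, swap 2 3 * swap 1 2 * swap 0 1]

theorem amap_face_zero : amap.comp (face 0) = ContinuousMap.id _ := by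
  apply ContinuousMap.ext
  intro x
  apply D3_ext
  intro k
  show amap (face 0 x) k = x k
  rw [amap_apply, face_eq]
  have h1 : am (n := 4) (Fin.succAbove (0 : Fin 5)) x 0 = 0 :=
    am_zero _ _ fun l => Fin.succ_ne_zero l
  have h2 : am (n := 4) (Fin.succAbove (0 : Fin 5)) x k.succ = x k := by
    rw [am_apply, Finset.sum_eq_single k]
    · rw [if_pos]
      rfl
    · intro l _ hl
      rw [if_neg]
      intro h
      exact hl (Fin.succ_injective _ h)
    · intro h
      exact absurd (Finset.mem_univ k) h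
  rw [h1, h2]
  simp

theorem helper1 (j : Fin 4) (s : Fin 4 → Fin 5) (hs : ∀ l, Fin.succAbove j.succ l = s l)
    (x : D3) (k : Fin 4) : amap (face j.succ x) k =
      (∑ l, if s l = k.succ then x l else 0) + (∑ l, if s l = 0 then x l else 0) / 4 := by
  rw [amap_apply, face_eq, am_apply, am_apply]
  simp only [hs]

theorem helper2 (j : Fin 4) (u : Fin 4 → Fin 4) (hu : ∀ l, ww j l = u l)
    (x : D3) (k : Fin 4) : cmap j (am (k := 3) (n := 3) (ww j) x) k =
      (if k = j then 0 else ∑ l, if u l = k then x l else 0) +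
        (∑ l, if u l = j then x l else 0) / 4 := by
  rw [cmap_apply, am_apply, am_apply]
  simp only [hu]

theorem amap_face_succ (j : Fin 4) :
    amap.comp (face j.succ) = (cmap j).comp (am (k := 3) (n := 3) (ww j)) := by
  apply ContinuousMap.ext
  intro x
  apply D3_ext
  intro k
  show amap (face j.succ x) k = cmap j (am (k := 3) (n := 3) (ww j) x) k
  match j with
  | 0 =>
    rw [helper1 0 ![0, 2, 3, 4] (by decide), helper2 0 ![0, 1, 2, 3] (by
      show ∀ l, (1 : Perm (Fin 4)) l = _
      decide)]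
    simp only [Fin.sum_univ_four]
    fin_cases k <;> simp
  | 1 =>
    rw [helper1 1 ![0, 1, 3, 4] (by decide), helper2 1 ![1, 0, 2, 3] (by
      show ∀ l, (swap 0 1 : Perm (Fin 4)) l = _
      decide)]
    simp only [Fin.sum_univ_four]
    fin_cases k <;> simp
  | 2 =>
    rw [helper1 2 ![0, 1, 2, 4] (by decide), helper2 2 ![2, 0, 1, 3] (by
      show ∀ l, (swap 1 2 * swap 0 1 : Perm (Fin 4)) l = _
      decide)]
    simp only [Fin.sum_univ_four]
    fin_cases k <;> simp
  | 3 =>
    rw [helper1 3 ![0, 1, 2, 3] (by decide), helper2 3 ![3, 0, 1, 2] (by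
      show ∀ l, (swap 2 3 * swap 1 2 * swap 0 1 : Perm (Fin 4)) l = _
      decide)]
    simp only [Fin.sum_univ_four]
    fin_cases k <;> simp

theorem sg_ww (j : Fin 4) : sg (ww j) = (-1 : ℝ) ^ (j : ℕ) := by
  fin_cases j
  · show sg 1 = _
    rw [sg_one]
    norm_num
  · show sg (swap 0 1) = _
    rw [sg_swap (by decide)]
    norm_num
  · show sg (swap 1 2 * swap 0 1) = _
    rw [sg_mul, sg_swap (by decide), sg_swap (by decide)]
    norm_num
  · show sg (swap 2 3 * swap 1 2 * swap 0 1) = _
    rw [sg_mul, sg_mul, sg_swap (by decide), sg_swap (by decide), sg_swap (by decide)]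
    show (-1 : ℝ) * -1 * -1 = (-1) ^ 3
    norm_num

section

variable {X : Type} [TopologicalSpace X]

theorem cone_mem (S : Set X) (g : C(D3, X)) (τ : Fin 4 → C(D3, X))
    (hg : ∀ i, g.comp (cmap i) = τ i)
    (hS : ∀ (i : Fin 4) (x : D3), (∃ f, x f = 0) → τ i x ∈ S) :
    (Finsupp.single g 1 - ∑ i, Finsupp.single (τ i) 1 : Chain 3 X) ∈ relSub S := by
  have hb : bdry 3 (Finsupp.single (g.comp amap) 1) = (Finsupp.single g 1 : Chain 3 X) -
      ∑ j : Fin 4, sg (ww j) • (Finsupp.single ((τ j).comp (am (k := 3) (n := 3) (ww j))) 1 :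
        Chain 3 X) := by
    rw [bdry_single, Fin.sum_univ_succ, ContinuousMap.comp_assoc, amap_face_zero,
      ContinuousMap.comp_id, Fin.val_zero, pow_zero, one_smul, sub_eq_add_neg,
      ← Finset.sum_neg_distrib]
    congr 1
    refine Finset.sum_congr rfl fun j _ => ?_
    rw [ContinuousMap.comp_assoc, amap_face_succ, ← ContinuousMap.comp_assoc, hg, sg_ww,
      Fin.val_succ, pow_succ, mul_neg, mul_one, neg_smul]
  have h1 := bdry_mem (S := S) (Finsupp.single (g.comp amap) 1)
  rw [hb] at h1
  have h2 : (∑ j : Fin 4, sg (ww j) •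
      ((Finsupp.single ((τ j).comp (am (k := 3) (n := 3) (ww j))) 1 : Chain 3 X) -
        sg (ww j) • Finsupp.single (τ j) 1)) ∈ relSub S :=
    (relSub S).sum_mem fun j _ => (relSub S).smul_mem _ (perm_mem (hS j) (ww j))
  have h3 := (relSub S).add_mem h1 h2
  convert h3 using 1
  simp only [smul_sub, smul_smul, sg_sq, one_smul, Finset.sum_sub_distrib]
  abel

end

/-! ### the fundamental cycle -/

section

variable (T : Triangulation)

theorem skel_mem (t : T.Tet) (x : D3) (h : ∃ f, x f = 0) : T.char t x ∈ T.skel := ⟨t, x, h, rfl⟩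

theorem isFundamental_iff (c : Chain 3 T.Space) : T.IsFundamental c ↔ bdry 2 c = 0 ∧
    c - ∑ t : T.Tet, Finsupp.single (T.char t) 1 ∈ relSub T.skel := by
  unfold Triangulation.IsFundamental
  apply and_congr_right
  intro _
  rw [mem_relSub]
  constructor
  · rintro ⟨b, r, h1, h2⟩
    refine ⟨b, r, h1, ?_⟩
    rw [h2]
    abel
  · rintro ⟨b, r, h1, h2⟩
    refine ⟨b, r, h1, ?_⟩
    rw [sub_eq_iff_eq_add] at h2
    rw [h2]
    abel

/-- the antisymmetrised chain -/
noncomputable def fcyc : Chain 3 T.Space :=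
  ∑ p : T.Tet × Perm (Fin 4), Finsupp.single ((T.char p.1).comp (am (k := 3) (n := 3) p.2))
    (sg p.2 / 24)

theorem fcyc_norm : norm1 (fcyc T) ≤ Fintype.card T.Tet := by
  unfold fcyc
  refine (norm1_sum_single_le _ _ _).trans (le_of_eq ?_)
  have h : ∀ p : T.Tet × Perm (Fin 4), |sg p.2 / 24| = 1 / 24 := by
    intro p
    rw [abs_div, abs_sg]
    norm_num
  simp only [h]
  rw [Finset.sum_const, Finset.card_univ, Fintype.card_prod, Fintype.card_perm, Fintype.card_fin,
    nsmul_eq_mul]
  push_cast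
  have : (Nat.factorial 4 : ℝ) = 24 := by norm_num [Nat.factorial]
  rw [this]
  ring

theorem fcyc_bdry : bdry 2 (fcyc T) = 0 := by
  unfold fcyc
  rw [map_sum]
  simp only [bdry_single]
  rw [Finset.sum_comm]
  apply Finset.sum_eq_zero
  intro i _
  rw [← Finset.smul_sum]
  have h : ∑ p : T.Tet × Perm (Fin 4), (Finsupp.single
      (((T.char p.1).comp (am (k := 3) (n := 3) p.2)).comp (face i)) (sg p.2 / 24) :
      Chain 2 T.Space) = 0 := by
    apply Finset.sum_involution (fun (p : T.Tet × Perm (Fin 4)) _ =>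
      (T.adj p.1 (p.2 i), T.perm p.1 (p.2 i) * p.2))
    · rintro ⟨t, π⟩ _
      have h1 : ((T.char (T.adj t (π i))).comp (am (k := 3) (n := 3)
          (T.perm t (π i) * π : Perm (Fin 4)))).comp (face i) =
          ((T.char t).comp (am (k := 3) (n := 3) π)).comp (face i) := by
        apply ContinuousMap.ext
        intro y
        show T.char (T.adj t (π i)) (am (k := 3) (n := 3) (T.perm t (π i) * π : Perm (Fin 4))
          (face i y)) = T.char t (am (k := 3) (n := 3) π (face i y))
        symm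
        have h2 : am (k := 3) (n := 3) (T.perm t (π i) * π : Perm (Fin 4)) (face i y) =
            am (k := 3) (n := 3) (T.perm t (π i)) (am (k := 3) (n := 3) π (face i y)) := by
          rw [Perm.coe_mul]
          exact (stdSimplex.map_comp_apply _ _ _).symm
        rw [h2]
        apply char_glue
        · rw [am_perm, face_eq]
          exact am_zero _ _ fun l => Fin.succAbove_ne i l
        · intro v
          exact am_perm _ _ _
      show (Finsupp.single (((T.char t).comp (am (k := 3) (n := 3) π)).comp (face i))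
        (sg π / 24) : Chain 2 T.Space) + Finsupp.single
        (((T.char (T.adj t (π i))).comp (am (k := 3) (n := 3)
          (T.perm t (π i) * π : Perm (Fin 4)))).comp (face i))
        (sg (T.perm t (π i) * π) / 24) = 0
      rw [h1, ← Finsupp.single_add]
      have h3 : sg (T.perm t (π i)) = -1 := by
        unfold sg
        rw [T.odd]
        simp
      rw [sg_mul, h3]
      have : sg π / 24 + -1 * sg π / 24 = 0 := by ring
      rw [this, Finsupp.single_zero]
    · rintro ⟨t, π⟩ _ _ h
      rw [Prod.mk.injEq] at h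
      have h1 : T.perm t (π i) = 1 := mul_eq_right.1 h.2
      have h2 := T.odd t (π i)
      rw [h1, Perm.sign_one] at h2
      exact absurd h2 (by decide)
    · intro _ _
      exact Finset.mem_univ _
    · rintro ⟨t, π⟩ _
      show (T.adj (T.adj t (π i)) ((T.perm t (π i) * π) i),
        T.perm (T.adj t (π i)) ((T.perm t (π i) * π) i) * (T.perm t (π i) * π)) = (t, π)
      rw [Perm.mul_apply, T.adj_adj, T.perm_perm, inv_mul_cancel_left]
  rw [h, smul_zero]

theorem fcyc_rel : fcyc T - ∑ t : T.Tet, Finsupp.single (T.char t) 1 ∈ relSub T.skel := by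
  have h1 : (∑ p : T.Tet × Perm (Fin 4), (sg p.2 / 24) •
      ((Finsupp.single ((T.char p.1).comp (am (k := 3) (n := 3) p.2)) 1 : Chain 3 T.Space) -
        sg p.2 • Finsupp.single (T.char p.1) 1)) ∈ relSub T.skel :=
    (relSub T.skel).sum_mem fun p _ => (relSub T.skel).smul_mem _
      (perm_mem (fun x hx => skel_mem T p.1 x hx) p.2)
  convert h1 using 1
  simp only [smul_sub, Finset.sum_sub_distrib]
  congr 1
  · unfold fcyc
    refine Finset.sum_congr rfl fun p _ => ?_
    rw [Finsupp.smul_single, smul_eq_mul, mul_one]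
  · rw [Fintype.sum_prod_type]
    refine Finset.sum_congr rfl fun t _ => ?_
    simp only [smul_smul]
    rw [← Finset.sum_smul]
    have h2 : ∀ π : Perm (Fin 4), sg π / 24 * sg π = 1 / 24 := by
      intro π
      have := sg_sq π
      have h3 : sg π / 24 * sg π = (sg π * sg π) / 24 := by ring
      rw [h3, this]
    simp only [h2]
    rw [Finset.sum_const, Finset.card_univ, Fintype.card_perm, Fintype.card_fin, nsmul_eq_mul]
    have : (Nat.factorial 4 : ℝ) * (1 / 24) = 1 := by norm_num [Nat.factorial]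
    rw [this, one_smul]

theorem fcyc_fund : T.IsFundamental (fcyc T) :=
  (isFundamental_iff T _).2 ⟨fcyc_bdry T, fcyc_rel T⟩

/-! ### stellar subdivision -/

variable (t0 : T.Tet)

/-- the homeomorphism as a continuous map -/
noncomputable def gm : C(T.Space, (cone T t0).Space) := ⟨Gmap T t0, continuous_Gmap T t0⟩

theorem gm_ne (t : {t : T.Tet // t ≠ t0}) :
    (gm T t0).comp (T.char t.1) = (cone T t0).char (Sum.inl t) := by
  apply ContinuousMap.ext
  intro x
  show G0 T t0 ⟨t.1, x⟩ = _
  rw [G0_ne T t0 t.2]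

theorem gm_self (i : Fin 4) :
    ((gm T t0).comp (T.char t0)).comp (cmap i) = (cone T t0).char (Sum.inr i) := by
  apply ContinuousMap.ext
  intro x
  show G0 T t0 ⟨t0, cmap i x⟩ = _
  rw [G0_self, gfun_cmap]

theorem gm_skel (p : T.Space) (hp : p ∈ T.skel) : gm T t0 p ∈ (cone T t0).skel := by
  obtain ⟨t, x, ⟨f, hf⟩, rfl⟩ := hp
  show G0 T t0 ⟨t, x⟩ ∈ _
  rw [G0_outer T t0 t f x hf]
  exact ⟨lift T t0 t f, x, ⟨f, hf⟩, rfl⟩

theorem push_rel {c : Chain 3 T.Space} (hc : c ∈ relSub T.skel) :
    push (gm T t0) 3 c ∈ relSub (cone T t0).skel := by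
  rw [mem_relSub] at hc
  obtain ⟨b, r, h1, h2⟩ := hc
  rw [h2, map_add, ← bdry_push]
  refine (relSub _).add_mem (bdry_mem _) ?_
  have h3 : r = ∑ σ ∈ r.support, Finsupp.single σ (r σ) := (Finsupp.sum_single r).symm
  rw [h3, map_sum]
  refine (relSub _).sum_mem fun σ hσ => ?_
  rw [push_single]
  apply single_mem
  intro x
  exact gm_skel T t0 _ (h1 σ hσ ⟨x, rfl⟩)

theorem push_sum : push (gm T t0) 3 (∑ t : T.Tet, Finsupp.single (T.char t) 1) -
    ∑ s : (cone T t0).Tet, Finsupp.single ((cone T t0).char s) 1 ∈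
      relSub (cone T t0).skel := by
  classical
  rw [map_sum]
  simp only [push_single]
  rw [sum_split T t0, cone_sum]
  have h1 : ∑ t : {t : T.Tet // t ≠ t0}, (Finsupp.single ((gm T t0).comp (T.char t.1)) 1 :
      Chain 3 (cone T t0).Space) =
      ∑ t : {t : T.Tet // t ≠ t0}, Finsupp.single ((cone T t0).char (Sum.inl t)) 1 :=
    Finset.sum_congr rfl fun t _ => by rw [gm_ne]
  rw [h1, add_sub_add_left_eq_sub]
  exact cone_mem _ _ (fun i => (cone T t0).char (Sum.inr i)) (gm_self T t0)
    fun i x hx => ⟨_, x, hx, rfl⟩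

theorem push_fund {c : Chain 3 T.Space} (hc : T.IsFundamental c) :
    (cone T t0).IsFundamental (push (gm T t0) 3 c) := by
  rw [isFundamental_iff] at hc ⊢
  obtain ⟨h1, h2⟩ := hc
  refine ⟨?_, ?_⟩
  · rw [bdry_push, h1, map_zero]
  · have h3 := push_rel T t0 h2
    rw [map_sub] at h3
    have h4 := (relSub _).add_mem h3 (push_sum T t0)
    convert h4 using 1
    abel

omit t0 in
theorem gromovNorm_le {c : Chain 3 T.Space} (hc : T.IsFundamental c) :
    T.gromovNorm ≤ norm1 c := by
  unfold Triangulation.gromovNorm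
  have h : BddBelow {x | ∃ c, T.IsFundamental c ∧ x = norm1 c} := by
    refine ⟨0, ?_⟩
    rintro y ⟨d, -, rfl⟩
    exact norm1_nonneg d
  exact csInf_le h ⟨c, hc, rfl⟩

theorem cone_norm : (cone T t0).gromovNorm ≤ T.gromovNorm := by
  have h : ∀ x ∈ {x | ∃ c, T.IsFundamental c ∧ x = norm1 c}, (cone T t0).gromovNorm ≤ x := by
    rintro x ⟨c, hc, rfl⟩
    exact (gromovNorm_le _ (push_fund T t0 hc)).trans (norm1_push_le _ _ _)
  exact le_csInf ⟨_, fcyc T, fcyc_fund T, rfl⟩ h

omit t0 in
theorem gromovNorm_le_card : T.gromovNorm ≤ Fintype.card T.Tet :=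
  (gromovNorm_le T (fcyc_fund T)).trans (fcyc_norm T)

end

theorem Stellar.norm {T T' : Triangulation} (h : Stellar T T') :
    T'.gromovNorm ≤ T.gromovNorm := by
  induction h with
  | refl => exact le_refl _
  | step T'' t0 _ ih => exact (cone_norm T'' t0).trans ih

end Pool.Agent.KS6_92.GN
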