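import Pool.Agent.KS6_92.GN.Cone

/-!
The stellar subdivision has the same quotient space.
-/

set_option autoImplicit false

namespace Pool.Agent.KS6_92.GN

open Pool.Agent.H297R3.Luo Equiv Topology

abbrev D3 : Type := stdSimplex ℝ (Fin 4)

theorem D3_nonneg (x : D3) (i : Fin 4) : 0 ≤ x i := x.2.1 i

theorem D3_sum (x : D3) : x 0 + x 1 + x 2 + x 3 = 1 := by
  have := x.2.2
  rw [Fin.sum_univ_four] at this
  exact this

theorem D3_ext {x y : D3} (h : ∀ k, x k = y k) : x = y := Subtype.ext (funext h)

theorem cmap_apply (i : Fin 4) (x : D3) (k : Fin 4) :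
    cmap i x k = (if k = i then 0 else x k) + x i / 4 := rfl

theorem cmap_of_zero {i : Fin 4} {x : D3} (h : x i = 0) : cmap i x = x := by
  apply D3_ext
  intro k
  rw [cmap_apply, h]
  split_ifs with hk
  · rw [hk, h]; norm_num
  · simp

theorem cmap_inj {i : Fin 4} {x y : D3} (h : cmap i x = cmap i y) : x = y := by
  have h1 : ∀ k, cmap i x k = cmap i y k := fun k => by rw [h]
  have hi : x i = y i := by
    have := h1 i
    rw [cmap_apply, cmap_apply, if_pos rfl, if_pos rfl] at this
    linarith
  apply D3_ext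
  intro k
  by_cases hk : k = i
  · rw [hk, hi]
  · have := h1 k
    rw [cmap_apply, cmap_apply, if_neg hk, if_neg hk, hi] at this
    linarith

theorem cmap_eq {i j : Fin 4} (hij : i ≠ j) {x y : D3} (h : cmap i x = cmap j y) :
    x j = 0 ∧ ∀ v, y (swap i j v) = x v := by
  have h1 : ∀ k, cmap i x k = cmap j y k := fun k => by rw [h]
  have hi := h1 i
  have hj := h1 j
  rw [cmap_apply, cmap_apply, if_pos rfl, if_neg hij] at hi
  rw [cmap_apply, cmap_apply, if_pos rfl, if_neg hij.symm] at hj
  have n1 := D3_nonneg x j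
  have n2 := D3_nonneg y i
  have e1 : x j = 0 := by linarith
  have e2 : y i = 0 := by linarith
  have e3 : x i = y j := by linarith
  refine ⟨e1, fun v => ?_⟩
  by_cases hv : v = i
  · rw [hv, swap_apply_left, e3]
  · by_cases hv' : v = j
    · rw [hv', swap_apply_right, e2, e1]
    · rw [swap_apply_of_ne_of_ne hv hv']
      have := h1 v
      rw [cmap_apply, cmap_apply, if_neg hv, if_neg hv', e3] at this
      linarith

theorem cmap_surj (p : D3) : ∃ (i : Fin 4) (x : D3), cmap i x = p := by
  obtain ⟨i, -, hi⟩ := Finset.exists_min_image Finset.univ (fun k : Fin 4 => p k)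
    Finset.univ_nonempty
  have hi' : ∀ k, p i ≤ p k := fun k => hi k (Finset.mem_univ k)
  have hs := D3_sum p
  have hmem : (fun k : Fin 4 => if k = i then 4 * p i else p k - p i) ∈ stdSimplex ℝ (Fin 4) := by
    constructor
    · intro k
      dsimp only
      split_ifs
      · have := D3_nonneg p i
        linarith
      · have := hi' k
        linarith
    · rw [Fin.sum_univ_four]
      clear hi hi'
      fin_cases i <;> simp <;> linarith
  refine ⟨i, ⟨_, hmem⟩, ?_⟩
  apply D3_ext
  intro k
  rw [cmap_apply]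
  show (if k = i then 0 else (if k = i then 4 * p i else p k - p i)) +
    (if i = i then 4 * p i else p i - p i) / 4 = p k
  rw [if_pos rfl]
  split_ifs with h
  · rw [h]; ring
  · ring

/-! ### the map from the four pieces to the simplex is a quotient map -/

/-- the four pieces of the simplex -/
noncomputable def qmap (p : Σ _ : Fin 4, D3) : D3 := cmap p.1 p.2

theorem continuous_qmap : Continuous qmap := by
  apply continuous_sigma
  intro i
  exact (cmap i).continuous

theorem isQuotientMap_qmap : IsQuotientMap qmap := by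
  have h1 : IsClosedMap qmap := continuous_qmap.isClosedMap
  refine h1.isQuotientMap continuous_qmap ?_
  intro p
  obtain ⟨i, x, h⟩ := cmap_surj p
  exact ⟨⟨i, x⟩, h⟩

section

variable (T : Triangulation) (t0 : T.Tet)

/-! ### from the subdivision to `T` -/

/-- the map on the tetrahedra of the subdivision -/
noncomputable def F0 (p : (cone T t0).Pre) : T.Space :=
  match p with
  | ⟨Sum.inl t, x⟩ => T.char t.1 x
  | ⟨Sum.inr i, x⟩ => T.char t0 (cmap i x)

variable {T t0}

theorem F0_outer (t : T.Tet) (f : Fin 4) (x : D3) (hx : x f = 0) :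
    F0 T t0 ⟨lift T t0 t f, x⟩ = T.char t x := by
  by_cases h : t = t0
  · subst h
    rw [lift_self]
    show T.char t (cmap f x) = _
    rw [cmap_of_zero hx]
  · rw [lift_ne h]
    rfl

theorem char_glue {t : T.Tet} {f : Fin 4} {x y : D3} (hx : x f = 0)
    (h : ∀ v, y (T.perm t f v) = x v) : T.char t x = T.char (T.adj t f) y :=
  Quot.sound ⟨f, hx, rfl, h⟩

theorem F0_glued (p q : (cone T t0).Pre) (h : (cone T t0).Glued p q) : F0 T t0 p = F0 T t0 q := by
  obtain ⟨s, x⟩ := p
  obtain ⟨s', y⟩ := q
  obtain ⟨f, hx, hs, hv⟩ := h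
  change x f = 0 at hx
  change s' = (cone T t0).adj s f at hs
  change ∀ v, y ((cone T t0).perm s f v) = x v at hv
  subst hs
  rw [cone_adj]
  simp only [cone_perm] at hv
  rcases face_cases s f with ⟨t, rfl⟩ | ⟨i, hi, rfl⟩
  · rw [cadj_lift, F0_outer t f x hx]
    simp only [cperm_lift] at hv
    have hy : y (T.perm t f f) = 0 := by rw [hv, hx]
    rw [F0_outer _ _ y hy]
    exact char_glue hx hv
  · rw [cadj_inner hi]
    simp only [cperm_inner hi] at hv
    show T.char t0 (cmap i x) = T.char t0 (cmap f y)
    congr 1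
    have e1 : y f = x i := by rw [← hv i, swap_apply_left]
    have e2 : y i = 0 := by rw [← hx, ← hv f, swap_apply_right]
    apply D3_ext
    intro k
    rw [cmap_apply, cmap_apply, e1]
    by_cases h1 : k = i
    · subst h1
      rw [if_pos rfl, if_neg hi.symm, e2]
    · by_cases h2 : k = f
      · subst h2
        rw [if_neg h1, if_pos rfl, hx]
      · rw [if_neg h1, if_neg h2]
        have := hv k
        rw [swap_apply_of_ne_of_ne h1 h2] at this
        rw [this]

variable (T t0)

/-- the map from the space of the subdivision to the space of `T` -/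
noncomputable def Fmap : (cone T t0).Space → T.Space := Quot.lift (F0 T t0) F0_glued

theorem continuous_Fmap : Continuous (Fmap T t0) := by
  apply continuous_quot_lift
  apply continuous_sigma
  rintro (t | i)
  · exact (T.char t.1).continuous
  · exact (T.char t0).continuous.comp (cmap i).continuous

theorem Fmap_char (s : (cone T t0).Tet) (x : D3) : Fmap T t0 ((cone T t0).char s x) =
    F0 T t0 ⟨s, x⟩ := rfl

/-! ### from `T` to the subdivision -/

theorem piece_eq (p q : Σ _ : Fin 4, D3) (h : qmap p = qmap q) :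
    (cone T t0).char (Sum.inr p.1) p.2 = (cone T t0).char (Sum.inr q.1) q.2 := by
  obtain ⟨i, x⟩ := p
  obtain ⟨j, y⟩ := q
  change cmap i x = cmap j y at h
  by_cases hij : i = j
  · subst hij
    rw [cmap_inj h]
  · obtain ⟨h1, h2⟩ := cmap_eq hij h
    have h3 := char_glue (T := cone T t0) (t := (Sum.inr i : {t : T.Tet // t ≠ t0} ⊕ Fin 4))
      (f := j) (x := x) (y := y) h1 (by
        intro v
        change y (cperm (T := T) (t0 := t0) (Sum.inr i) j v) = x v
        rw [cperm_inner (Ne.symm hij)]
        exact h2 v)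
    change (cone T t0).char (Sum.inr i) x =
      (cone T t0).char (cadj (T := T) (t0 := t0) (Sum.inr i) j) y at h3
    rw [cadj_inner (Ne.symm hij)] at h3
    exact h3

/-- the map of the tetrahedron `t0` -/
noncomputable def gfun (x : D3) : (cone T t0).Space :=
  let p := Function.surjInv isQuotientMap_qmap.surjective x
  (cone T t0).char (Sum.inr p.1) p.2

theorem gfun_qmap (p : Σ _ : Fin 4, D3) :
    gfun T t0 (qmap p) = (cone T t0).char (Sum.inr p.1) p.2 := by
  unfold gfun
  apply piece_eq
  exact Function.surjInv_eq _ _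

theorem continuous_gfun : Continuous (gfun T t0) := by
  rw [isQuotientMap_qmap.continuous_iff]
  have : gfun T t0 ∘ qmap = fun p => (cone T t0).char (Sum.inr p.1) p.2 := by
    funext p
    exact gfun_qmap T t0 p
  rw [this]
  apply continuous_sigma
  intro i
  exact ((cone T t0).char (Sum.inr i)).continuous

theorem gfun_cmap (i : Fin 4) (x : D3) :
    gfun T t0 (cmap i x) = (cone T t0).char (Sum.inr i) x := gfun_qmap T t0 ⟨i, x⟩

open Classical in
/-- the map on the tetrahedra of `T` -/
noncomputable def G0 (p : T.Pre) : (cone T t0).Space :=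
  if h : p.1 = t0 then gfun T t0 p.2 else (cone T t0).char (Sum.inl ⟨p.1, h⟩) p.2

theorem G0_self (x : D3) : G0 T t0 ⟨t0, x⟩ = gfun T t0 x := by
  unfold G0
  rw [dif_pos rfl]

theorem G0_ne {t : T.Tet} (h : t ≠ t0) (x : D3) :
    G0 T t0 ⟨t, x⟩ = (cone T t0).char (Sum.inl ⟨t, h⟩) x := by
  unfold G0
  rw [dif_neg h]

theorem G0_outer (t : T.Tet) (f : Fin 4) (x : D3) (hx : x f = 0) :
    G0 T t0 ⟨t, x⟩ = (cone T t0).char (lift T t0 t f) x := by
  by_cases h : t = t0
  · subst h
    rw [G0_self, lift_self]
    conv_lhs => rw [← cmap_of_zero hx]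
    exact gfun_cmap T t f x
  · rw [G0_ne T t0 h, lift_ne h]

theorem G0_glued (p q : T.Pre) (h : T.Glued p q) : G0 T t0 p = G0 T t0 q := by
  obtain ⟨t, x⟩ := p
  obtain ⟨t', y⟩ := q
  obtain ⟨f, hx, hs, hv⟩ := h
  change x f = 0 at hx
  change t' = T.adj t f at hs
  change ∀ v, y (T.perm t f v) = x v at hv
  subst hs
  have hy : y (T.perm t f f) = 0 := by rw [hv, hx]
  rw [G0_outer T t0 t f x hx, G0_outer T t0 _ _ y hy]
  have h3 := char_glue (T := cone T t0) (t := lift T t0 t f) (f := f) (x := x) (y := y) hx (by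
    intro v
    change y (cperm (lift T t0 t f) f v) = x v
    rw [cperm_lift]
    exact hv v)
  change (cone T t0).char (lift T t0 t f) x =
    (cone T t0).char (cadj (lift T t0 t f) f) y at h3
  rw [cadj_lift] at h3
  exact h3

/-- the map from the space of `T` to the space of the subdivision -/
noncomputable def Gmap : T.Space → (cone T t0).Space := Quot.lift (G0 T t0) (G0_glued T t0)

theorem continuous_Gmap : Continuous (Gmap T t0) := by
  apply continuous_quot_lift
  apply continuous_sigma
  intro t
  by_cases h : t = t0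
  · subst h
    have : (fun x => G0 T t ⟨t, x⟩) = gfun T t := by
      funext x
      exact G0_self T t x
    rw [this]
    exact continuous_gfun T t
  · have : (fun x => G0 T t0 ⟨t, x⟩) = fun x => (cone T t0).char (Sum.inl ⟨t, h⟩) x := by
      funext x
      exact G0_ne T t0 h x
    rw [this]
    exact ((cone T t0).char _).continuous

theorem Gmap_char (t : T.Tet) (x : D3) : Gmap T t0 (T.char t x) = G0 T t0 ⟨t, x⟩ := rfl

/-- the space of the stellar subdivision is homeomorphic to the space of `T` -/
noncomputable def coneHomeo : (cone T t0).Space ≃ₜ T.Space where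
  toFun := Fmap T t0
  invFun := Gmap T t0
  left_inv := by
    rintro ⟨⟨s, x⟩⟩
    show Gmap T t0 (F0 T t0 ⟨s, x⟩) = (cone T t0).char s x
    rcases s with ⟨t, ht⟩ | i
    · show G0 T t0 ⟨t, x⟩ = _
      rw [G0_ne T t0 ht]
    · show G0 T t0 ⟨t0, cmap i x⟩ = _
      rw [G0_self, gfun_cmap]
  right_inv := by
    rintro ⟨⟨t, x⟩⟩
    show Fmap T t0 (G0 T t0 ⟨t, x⟩) = T.char t x
    by_cases h : t = t0
    · subst h
      rw [G0_self]
      obtain ⟨i, y, rfl⟩ := cmap_surj x
      rw [gfun_cmap]
      rfl
    · rw [G0_ne T t0 h]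
      rfl
  continuous_toFun := continuous_Fmap T t0
  continuous_invFun := continuous_Gmap T t0

end

theorem Stellar.homeo {T T' : Triangulation} (h : Stellar T T') :
    Nonempty (T'.Space ≃ₜ T.Space) := by
  induction h with
  | refl => exact ⟨Homeomorph.refl _⟩
  | step T'' t0 _ ih =>
    obtain ⟨e⟩ := ih
    exact ⟨(coneHomeo T'' t0).trans e⟩

end Pool.Agent.KS6_92.GN
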