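import Pool.Agent.KS6_92.GN.Angle

/-!
Angle structures under stellar subdivision.
-/

set_option autoImplicit false

namespace Pool.Agent.KS6_92.GN

open Pool.Agent.H297R3.Luo Equiv

/-- The angles `α` of the four pieces are compatible with the angles `θ` of the tetrahedron. -/
structure Compat (θ : Fin 3 → ℝ) (α : Fin 4 → Fin 3 → ℝ) : Prop where
  row : ∀ i, Ev (α i 0 + α i 1 + α i 2 - 1)
  o01 : Ev (α 2 0 + α 3 0 - θ 0)
  o23 : Ev (α 0 0 + α 1 0 - θ 0)
  o02 : Ev (α 1 1 + α 3 1 - θ 1)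
  o13 : Ev (α 0 1 + α 2 1 - θ 1)
  o03 : Ev (α 1 2 + α 2 2 - θ 2)
  o12 : Ev (α 0 2 + α 3 2 - θ 2)
  i0 : Ev (α 1 0 + α 2 1 + α 3 2)
  i1 : Ev (α 0 0 + α 2 2 + α 3 1)
  i2 : Ev (α 0 1 + α 1 2 + α 3 0)
  i3 : Ev (α 0 2 + α 1 1 + α 2 0)

/-- a vertex different from `i` and `j` -/
def oth (i j : Fin 4) : Fin 4 :=
  if i ≠ 0 ∧ j ≠ 0 then 0 else if i ≠ 1 ∧ j ≠ 1 then 1 else 2

theorem oth_ne : ∀ i j : Fin 4, i ≠ oth i j ∧ j ≠ oth i j := by decide

theorem oth_symm : ∀ i j : Fin 4, oth i j = oth j i := by decide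

section

variable {T : Triangulation} {t0 : T.Tet}

/-- a weight of the subdivision, with explicit type -/
def wt (Y : (cone T t0).Tet → Fin 4 → Fin 4 → ℤ) (s : {t : T.Tet // t ≠ t0} ⊕ Fin 4) :
    Fin 4 → Fin 4 → ℤ := Y s

theorem wt_glue {Y : (cone T t0).Tet → Fin 4 → Fin 4 → ℤ} (hY : IsWeight (cone T t0) Y)
    (s : {t : T.Tet // t ≠ t0} ⊕ Fin 4) {f i j : Fin 4} (h1 : i ≠ f) (h2 : j ≠ f) (h3 : i ≠ j) :
    wt Y (cadj s f) (cperm s f i) (cperm s f j) = wt Y s i j := hY.glue s f i j h1 h2 h3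

theorem wt_symm {Y : (cone T t0).Tet → Fin 4 → Fin 4 → ℤ} (hY : IsWeight (cone T t0) Y)
    (s : {t : T.Tet // t ≠ t0} ⊕ Fin 4) (i j : Fin 4) : wt Y s i j = wt Y s j i :=
  hY.symm s i j

theorem wt_outer {Y : (cone T t0).Tet → Fin 4 → Fin 4 → ℤ} (hY : IsWeight (cone T t0) Y)
    {f f' i j : Fin 4} (h1 : i ≠ f) (h2 : j ≠ f) (h1' : i ≠ f') (h2' : j ≠ f') (h3 : i ≠ j) :
    wt Y (Sum.inr f) i j = wt Y (Sum.inr f') i j := by
  by_cases h : f = f'
  · rw [h]
  · have h4 := wt_glue hY (Sum.inr f) h1' h2' h3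
    rw [cadj_inner (Ne.symm h), cperm_inner (Ne.symm h), swap_apply_of_ne_of_ne h1 h1',
      swap_apply_of_ne_of_ne h2 h2'] at h4
    exact h4.symm

theorem wt_inner {Y : (cone T t0).Tet → Fin 4 → Fin 4 → ℤ} (hY : IsWeight (cone T t0) Y)
    {i f v : Fin 4} (h1 : i ≠ v) (h2 : f ≠ v) :
    wt Y (Sum.inr i) i v = wt Y (Sum.inr f) f v := by
  by_cases h : i = f
  · rw [h]
  · have h4 := wt_glue hY (Sum.inr i) h (Ne.symm h2) h1
    rw [cadj_inner (Ne.symm h), cperm_inner (Ne.symm h), swap_apply_left,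
      swap_apply_of_ne_of_ne (Ne.symm h1) (Ne.symm h2)] at h4
    exact h4.symm

theorem wt_lift {Y : (cone T t0).Tet → Fin 4 → Fin 4 → ℤ} (hY : IsWeight (cone T t0) Y)
    (t : T.Tet) {f f' i j : Fin 4} (h1 : i ≠ f) (h2 : j ≠ f) (h1' : i ≠ f') (h2' : j ≠ f')
    (h3 : i ≠ j) : wt Y (lift T t0 t f) i j = wt Y (lift T t0 t f') i j := by
  by_cases h : t = t0
  · subst h
    rw [lift_self, lift_self]
    exact wt_outer hY h1 h2 h1' h2' h3
  · rw [lift_ne h, lift_ne h]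

/-- the weight of `T` induced by a weight of the subdivision -/
noncomputable def down (Y : (cone T t0).Tet → Fin 4 → Fin 4 → ℤ) : T.Tet → Fin 4 → Fin 4 → ℤ :=
  fun t i j => wt Y (lift T t0 t (oth i j)) i j

theorem down_eq {Y : (cone T t0).Tet → Fin 4 → Fin 4 → ℤ} (hY : IsWeight (cone T t0) Y)
    (t : T.Tet) {f i j : Fin 4} (h1 : i ≠ f) (h2 : j ≠ f) (h3 : i ≠ j) :
    down Y t i j = wt Y (lift T t0 t f) i j :=
  wt_lift hY t (oth_ne i j).1 (oth_ne i j).2 h1 h2 h3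

theorem down_weight {Y : (cone T t0).Tet → Fin 4 → Fin 4 → ℤ} (hY : IsWeight (cone T t0) Y) :
    IsWeight T (down Y) := by
  refine ⟨fun t i j => ?_, fun t f i j h1 h2 h3 => ?_⟩
  · unfold down
    rw [oth_symm i j]
    exact wt_symm hY _ _ _
  · have e1 : T.perm t f i ≠ T.perm t f f := fun h => h1 ((T.perm t f).injective h)
    have e2 : T.perm t f j ≠ T.perm t f f := fun h => h2 ((T.perm t f).injective h)
    have e3 : T.perm t f i ≠ T.perm t f j := fun h => h3 ((T.perm t f).injective h)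
    rw [down_eq hY _ e1 e2 e3, down_eq hY t h1 h2 h3]
    have h4 := wt_glue hY (lift T t0 t f) h1 h2 h3
    rw [cadj_lift, cperm_lift] at h4
    exact h4

/-- The angle structure of the subdivision. -/
def up (a : T.Tet → Fin 3 → ℝ) (α : Fin 4 → Fin 3 → ℝ) : (cone T t0).Tet → Fin 3 → ℝ :=
  fun s => Sum.elim (fun t : {t : T.Tet // t ≠ t0} => a t.1) α s

theorem ev_down_ne {Y : (cone T t0).Tet → Fin 4 → Fin 4 → ℤ}
    (t : {t : T.Tet // t ≠ t0}) (θ : Fin 3 → ℝ) :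
    ev (down Y t.1) θ = ev (wt Y (Sum.inl t)) θ := by
  unfold ev down
  simp only [lift_ne t.2]

theorem ev_pieces {Y : (cone T t0).Tet → Fin 4 → Fin 4 → ℤ} (hY : IsWeight (cone T t0) Y)
    {θ : Fin 3 → ℝ} {α : Fin 4 → Fin 3 → ℝ} (h : Compat θ α) :
    Ev (∑ i, ev (wt Y (Sum.inr i)) (α i) - ev (down Y t0) θ) := by
  -- outer edges
  have hd : ∀ (f i j : Fin 4), i ≠ f → j ≠ f → i ≠ j →
      wt Y (Sum.inr f) i j = down Y t0 i j := by
    intro f i j h1 h2 h3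
    rw [down_eq hY t0 h1 h2 h3, lift_self]
  have a0 := hd 0 1 2 (by decide) (by decide) (by decide)
  have a1 := hd 0 1 3 (by decide) (by decide) (by decide)
  have a2 := hd 0 2 3 (by decide) (by decide) (by decide)
  have b0 := hd 1 0 2 (by decide) (by decide) (by decide)
  have b1 := hd 1 0 3 (by decide) (by decide) (by decide)
  have b2 := hd 1 2 3 (by decide) (by decide) (by decide)
  have c0 := hd 2 0 1 (by decide) (by decide) (by decide)
  have c1 := hd 2 0 3 (by decide) (by decide) (by decide)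
  have c2 := hd 2 1 3 (by decide) (by decide) (by decide)
  have d0 := hd 3 0 1 (by decide) (by decide) (by decide)
  have d1 := hd 3 0 2 (by decide) (by decide) (by decide)
  have d2 := hd 3 1 2 (by decide) (by decide) (by decide)
  -- inner edges
  have p0 : wt Y (Sum.inr 2) 0 2 = wt Y (Sum.inr 1) 0 1 := by
    rw [wt_symm hY _ 0 2, wt_symm hY _ 0 1]
    exact wt_inner hY (by decide) (by decide)
  have p1 : wt Y (Sum.inr 3) 0 3 = wt Y (Sum.inr 1) 0 1 := by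
    rw [wt_symm hY _ 0 3, wt_symm hY _ 0 1]
    exact wt_inner hY (by decide) (by decide)
  have q0 : wt Y (Sum.inr 2) 1 2 = wt Y (Sum.inr 0) 0 1 := by
    rw [wt_symm hY _ 1 2]
    exact wt_inner hY (by decide) (by decide)
  have q1 : wt Y (Sum.inr 3) 1 3 = wt Y (Sum.inr 0) 0 1 := by
    rw [wt_symm hY _ 1 3]
    exact wt_inner hY (by decide) (by decide)
  have r0 : wt Y (Sum.inr 1) 1 2 = wt Y (Sum.inr 0) 0 2 :=
    wt_inner hY (by decide) (by decide)
  have r1 : wt Y (Sum.inr 3) 2 3 = wt Y (Sum.inr 0) 0 2 := by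
    rw [wt_symm hY _ 2 3]
    exact wt_inner hY (by decide) (by decide)
  have s0 : wt Y (Sum.inr 1) 1 3 = wt Y (Sum.inr 0) 0 3 :=
    wt_inner hY (by decide) (by decide)
  have s1 : wt Y (Sum.inr 2) 2 3 = wt Y (Sum.inr 0) 0 3 :=
    wt_inner hY (by decide) (by decide)
  have key := (((((((((h.o01.mul (down Y t0 0 1)).add (h.o23.mul (down Y t0 2 3))).add
    (h.o02.mul (down Y t0 0 2))).add (h.o13.mul (down Y t0 1 3))).add
    (h.o03.mul (down Y t0 0 3))).add (h.o12.mul (down Y t0 1 2))).add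
    (h.i0.mul (wt Y (Sum.inr 1) 0 1))).add (h.i1.mul (wt Y (Sum.inr 0) 0 1))).add
    (h.i2.mul (wt Y (Sum.inr 0) 0 2))).add (h.i3.mul (wt Y (Sum.inr 0) 0 3))
  refine key.congr ?_
  rw [Fin.sum_univ_four]
  unfold ev
  rw [a0, a1, a2, b0, b1, b2, c0, c1, c2, d0, d1, d2, p0, p1, q0, q1, r0, r1, s0, s1]
  push_cast
  ring

theorem up_angle {a : T.Tet → Fin 3 → ℝ} (ha : IsAngle T a) {α : Fin 4 → Fin 3 → ℝ}
    (h : Compat (a t0) α) : IsAngle (cone T t0) (up a α) := by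
  classical
  refine ⟨?_, fun Y hY => ?_⟩
  · rintro (t | i)
    · exact ha.row t.1
    · exact h.row i
  · have h1 := ha.edge (down Y) (down_weight hY)
    rw [sum_split T t0] at h1
    have h2 := ev_pieces hY h
    have h3 := h1.add h2
    refine h3.congr ?_
    rw [cone_sum]
    have e1 : ∑ t : {t : T.Tet // t ≠ t0}, ev (down Y t.1) (a t.1) =
        ∑ t : {t : T.Tet // t ≠ t0}, ev (Y (Sum.inl t)) (up a α (Sum.inl t)) := by
      refine Finset.sum_congr rfl fun t _ => ?_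
      rw [ev_down_ne]
      rfl
    have e2 : ∑ i : Fin 4, ev (wt Y (Sum.inr i)) (α i) =
        ∑ i : Fin 4, ev (Y (Sum.inr i)) (up (t0 := t0) a α (Sum.inr i)) := rfl
    rw [← e1, ← e2]
    ring

end

end Pool.Agent.KS6_92.GN
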