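import Pool.Agent.KS6_92.GN.Move
import Pool.Graph.R_seed8.H297R3.Luo.Weight
import Pool.Graph.R_seed8.Y415.LU.Bound

/-!
From angle structures to points of `W(T)`.
-/

set_option autoImplicit false

namespace Pool.Agent.KS6_92.GN

open Pool.Agent.H297R3.Luo Pool.Agent.Y415.LU Real

/-- All three angles are in `(0, 1)` modulo `2`, or all three are in `(-1, 0)` modulo `2`. -/
def Good (θ : Fin 3 → ℝ) : Prop :=
  (∀ k, 0 < Real.sin (π * θ k)) ∨ (∀ k, Real.sin (π * θ k) < 0)

/-- the volume of a tetrahedron with given angles -/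
noncomputable def V (θ : Fin 3 → ℝ) : ℝ := lob (π * θ 0) + lob (π * θ 1) + lob (π * θ 2)

/-- the modulus -/
noncomputable def rr (θ : Fin 3 → ℝ) (k : Fin 3) : ℝ :=
  Real.sin (π * θ (k + 1)) / Real.sin (π * θ (k + 2))

/-- the shape -/
noncomputable def vsh (θ : Fin 3 → ℝ) (k : Fin 3) : ℂ :=
  (rr θ k : ℂ) * Complex.exp (((π * θ k : ℝ) : ℂ) * Complex.I)

theorem rr_pos {θ : Fin 3 → ℝ} (h : Good θ) (k : Fin 3) : 0 < rr θ k := by
  unfold rr
  rcases h with h | h
  · exact div_pos (h _) (h _)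
  · exact div_pos_of_neg_of_neg (h _) (h _)

theorem Good.ne {θ : Fin 3 → ℝ} (h : Good θ) (k : Fin 3) : Real.sin (π * θ k) ≠ 0 := by
  rcases h with h | h
  · exact (h k).ne'
  · exact (h k).ne

theorem core {A B C : ℝ} (hA : Real.sin A ≠ 0) (hC : Real.sin C ≠ 0)
    (h : Real.sin C = Real.sin A * Real.cos B + Real.cos A * Real.sin B) :
    (((Real.sin C / Real.sin A : ℝ) : ℂ) * Complex.exp ((B : ℂ) * Complex.I)) *
      (1 - ((Real.sin B / Real.sin C : ℝ) : ℂ) * Complex.exp ((A : ℂ) * Complex.I)) = 1 := by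
  rw [Complex.exp_mul_I, Complex.exp_mul_I, ← Complex.ofReal_cos, ← Complex.ofReal_sin,
    ← Complex.ofReal_cos, ← Complex.ofReal_sin]
  have hB := Real.sin_sq_add_cos_sq B
  generalize Real.sin A = sA at *
  generalize Real.sin B = sB at *
  generalize Real.sin C = sC at *
  generalize Real.cos A = cA at *
  generalize Real.cos B = cB at *
  have hA' : (sA : ℂ) ≠ 0 := by exact_mod_cast hA
  have hC' : (sC : ℂ) ≠ 0 := by exact_mod_cast hC
  have h' : (sC : ℂ) = sA * cB + cA * sB := by exact_mod_cast h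
  have hB' : (sB : ℂ) ^ 2 + (cB : ℂ) ^ 2 = 1 := by exact_mod_cast hB
  push_cast
  field_simp
  have hI : Complex.I ^ 2 = -1 := Complex.I_sq
  linear_combination ((cB : ℂ) + sB * Complex.I) * h' + (sA : ℂ) * hB' - (sA : ℂ) * sB ^ 2 * hI

theorem sin_sum {θ : Fin 3 → ℝ} (h : Ev (θ 0 + θ 1 + θ 2 - 1)) (k : Fin 3) :
    Real.sin (π * θ (k + 2)) = Real.sin (π * θ k) * Real.cos (π * θ (k + 1)) +
      Real.cos (π * θ k) * Real.sin (π * θ (k + 1)) := by
  obtain ⟨m, hm⟩ := h
  have h1 : θ k + θ (k + 1) + θ (k + 2) = 1 + 2 * m := by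
    fin_cases k
    · show θ 0 + θ 1 + θ 2 = _
      linarith
    · show θ 1 + θ 2 + θ 0 = _
      linarith
    · show θ 2 + θ 0 + θ 1 = _
      linarith
  rw [← Real.sin_add]
  have h2 : π * θ (k + 2) = (π - (π * θ k + π * θ (k + 1))) + m * (2 * π) := by
    have : θ (k + 2) = 1 + 2 * m - θ k - θ (k + 1) := by linarith
    rw [this]
    ring
  rw [h2, Real.sin_add_int_mul_two_pi, Real.sin_pi_sub]

theorem vsh_step {θ : Fin 3 → ℝ} (h : Ev (θ 0 + θ 1 + θ 2 - 1)) (hg : Good θ) (k : Fin 3) :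
    vsh θ (k + 1) * (1 - vsh θ k) = 1 := by
  have h1 := core (A := π * θ k) (B := π * θ (k + 1)) (C := π * θ (k + 2)) (hg.ne _) (hg.ne _)
    (sin_sum h k)
  have e2 : k + 1 + 1 = k + 2 := by rw [add_assoc]; rfl
  have e3 : k + 1 + 2 = k := by
    rw [add_assoc]
    have : (1 + 2 : Fin 3) = 0 := rfl
    rw [this, add_zero]
  unfold vsh rr
  rw [e2, e3]
  exact h1

theorem vsh_ne_zero {θ : Fin 3 → ℝ} (hg : Good θ) (k : Fin 3) : vsh θ k ≠ 0 := by
  unfold vsh
  exact mul_ne_zero (by exact_mod_cast (rr_pos hg k).ne') (Complex.exp_ne_zero _)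

theorem vsh_im {θ : Fin 3 → ℝ} (hg : Good θ) (k : Fin 3) : (vsh θ k).im ≠ 0 := by
  unfold vsh
  rw [Complex.im_ofReal_mul, Complex.exp_ofReal_mul_I_im]
  exact mul_ne_zero (rr_pos hg k).ne' (hg.ne k)

/-! ### periodicity of the Lobachevsky function -/

theorem lg_periodic : Function.Periodic lg π := by
  intro s
  unfold lg
  rw [Real.sin_add_pi, mul_neg, abs_neg]

theorem lob_add_pi (t : ℝ) : lob (t + π) = lob t := by
  have h1 := lob_sub t (t + π)
  have h2 := lg_periodic.intervalIntegral_add_eq t 0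
  have h3 := lob_sub 0 π
  rw [lob_zero, lob_pi] at h3
  rw [h2, zero_add, ← h3] at h1
  linarith

theorem lob_periodic : Function.Periodic lob π := lob_add_pi

theorem lob_add_int (t : ℝ) (n : ℤ) : lob (t + n * π) = lob t := by
  have := lob_periodic.int_mul n t
  exact this

theorem continuous_lob : Continuous lob := by
  have h := intervalIntegral.continuous_primitive (fun a b => lg_integrable a b) 0
  exact h.neg

theorem vsh_lob {θ : Fin 3 → ℝ} (hg : Good θ) (k : Fin 3) :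
    lob (Complex.arg (vsh θ k)) = lob (π * θ k) := by
  unfold vsh
  rw [Complex.arg_real_mul _ (rr_pos hg k), Complex.arg_exp_mul_I]
  have h : toIocMod (mul_pos two_pos Real.pi_pos) (-π) (π * θ k) =
      π * θ k + ((-(2 * toIocDiv (mul_pos two_pos Real.pi_pos) (-π) (π * θ k)) : ℤ) : ℝ) * π := by
    rw [← self_sub_toIocDiv_zsmul]
    rw [zsmul_eq_mul]
    push_cast
    ring
  rw [h, lob_add_int]

/-! ### the edge equations -/

section Edge

variable (T : Triangulation)

open Classical in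
/-- the indicator of an edge of the triangulation -/
noncomputable def ind (e : T.Edge) (t : T.Tet) (d : Sym2 (Fin 4)) : ℤ :=
  if h : d.IsDiag then 0 else
    if (Quot.mk T.EdgeGlued ((t, ⟨d, h⟩) : T.PreEdge) : T.Edge) = e then 1 else 0

theorem ind_weight (e : T.Edge) : IsWeight T (fun t i j => ind T e t s(i, j)) := by
  refine ⟨fun t i j => congrArg (ind T e t) Sym2.eq_swap, fun t f i j h1 h2 h3 => ?_⟩
  have h4 : T.perm t f i ≠ T.perm t f j := fun h => h3 ((T.perm t f).injective h)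
  have d1 : ¬ (s(i, j) : Sym2 (Fin 4)).IsDiag := by
    rw [Sym2.mk_isDiag_iff]; exact h3
  have d2 : ¬ (s(T.perm t f i, T.perm t f j) : Sym2 (Fin 4)).IsDiag := by
    rw [Sym2.mk_isDiag_iff]; exact h4
  unfold ind
  rw [dif_neg d1, dif_neg d2]
  have h5 : (Quot.mk T.EdgeGlued ((t, ⟨s(i, j), d1⟩) : T.PreEdge) : T.Edge) =
      Quot.mk T.EdgeGlued ((T.adj t f, ⟨s(T.perm t f i, T.perm t f j), d2⟩) : T.PreEdge) := by
    apply Quot.sound
    refine ⟨f, ?_, rfl, ?_⟩
    · show f ∉ s(i, j)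
      rw [Sym2.mem_iff]
      rintro (h | h)
      · exact h1 h.symm
      · exact h2 h.symm
    · show s(T.perm t f i, T.perm t f j) = (s(i, j) : Sym2 (Fin 4)).map (T.perm t f)
      rw [Sym2.map_mk]
  rw [h5]

theorem inc_eq (e : T.Edge) (t : T.Tet) (k : Fin 3) :
    (T.inc e (t, k) : ℤ) = ek (fun i j => ind T e t s(i, j)) k := by
  classical
  unfold Triangulation.inc
  rw [Finset.card_filter]
  push_cast
  rw [← (Equiv.ofBijective E6 E6_bij).sum_comp]
  have h1 : ∀ c : Fin 6, (if ((Equiv.ofBijective E6 E6_bij) c).1 ∈ Triangulation.oppEdges k ∧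
      (Quot.mk T.EdgeGlued (t, (Equiv.ofBijective E6 E6_bij) c) : T.Edge) = e
      then (1 : ℤ) else 0) = if k = quad6 c then ind T e t (E6 c).1 else 0 := by
    intro c
    show (if (E6 c).1 ∈ Triangulation.oppEdges k ∧
      (Quot.mk T.EdgeGlued (t, E6 c) : T.Edge) = e then (1 : ℤ) else 0) = _
    rw [mem_opp]
    unfold ind
    rw [dif_neg (E6 c).2]
    by_cases h : k = quad6 c
    · simp [h]
    · simp [h]
  have h2 : (∑ c : Fin 6, (if ((Equiv.ofBijective E6 E6_bij) c).1 ∈ Triangulation.oppEdges k ∧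
      (Quot.mk T.EdgeGlued (t, (Equiv.ofBijective E6 E6_bij) c) : T.Edge) = e
      then (1 : ℤ) else 0)) = ∑ c : Fin 6, if k = quad6 c then ind T e t (E6 c).1 else 0 :=
    Finset.sum_congr rfl fun c _ => h1 c
  refine Eq.trans ?_ (h2.trans ?_)
  · apply Finset.sum_congr rfl
    intro c _
    congr
  · rw [Fin.sum_univ_six]
    fin_cases k <;> simp [quad6, E6, ek]

theorem prod_edge_eq {a : T.Tet → Fin 3 → ℝ} (ha : IsAngle T a) (hg : ∀ t, Good (a t))
    (e : T.Edge) : ∃ r : ℝ, 0 < r ∧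
      ∏ q : T.Quad, vsh (a q.1) q.2 ^ T.inc e q = (r : ℂ) := by
  obtain ⟨m, hm⟩ := ha.edge _ (ind_weight T e)
  refine ⟨∏ q : T.Quad, rr (a q.1) q.2 ^ T.inc e q,
    Finset.prod_pos fun q _ => pow_pos (rr_pos (hg _) _) _, ?_⟩
  unfold vsh
  simp only [mul_pow]
  rw [Finset.prod_mul_distrib]
  have h1 : ∏ q : T.Quad, Complex.exp (((π * a q.1 q.2 : ℝ) : ℂ) * Complex.I) ^ T.inc e q = 1 := by
    have h2 : ∀ q : T.Quad, Complex.exp (((π * a q.1 q.2 : ℝ) : ℂ) * Complex.I) ^ T.inc e q =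
        Complex.exp ((T.inc e q : ℂ) * (((π * a q.1 q.2 : ℝ) : ℂ) * Complex.I)) := fun q =>
      (Complex.exp_nat_mul _ _).symm
    simp only [h2]
    rw [← Complex.exp_sum]
    have h3 : ∑ q : T.Quad, (T.inc e q : ℝ) * a q.1 q.2 = 2 * m := by
      rw [← hm, Fintype.sum_prod_type]
      refine Finset.sum_congr rfl fun t _ => ?_
      have h4 : ∀ k, (T.inc e (t, k) : ℝ) = ((ek (fun i j => ind T e t s(i, j)) k : ℤ) : ℝ) := by
        intro k
        rw [← inc_eq]
        norm_cast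
      simp only [h4]
      rw [Fin.sum_univ_three]
      simp only [ek, ev, Matrix.cons_val_zero, Matrix.cons_val_one, Matrix.cons_val]
    have h5 : ∑ q : T.Quad, (T.inc e q : ℂ) * (((π * a q.1 q.2 : ℝ) : ℂ) * Complex.I) =
        m * (2 * π * Complex.I) := by
      have h6 : ((∑ q : T.Quad, (T.inc e q : ℝ) * a q.1 q.2 : ℝ) : ℂ) = 2 * m := by
        rw [h3]
        push_cast
        ring
      push_cast at h6
      have h7 : ∑ q : T.Quad, (T.inc e q : ℂ) * (((π * a q.1 q.2 : ℝ) : ℂ) * Complex.I) =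
          (∑ q : T.Quad, (T.inc e q : ℂ) * (a q.1 q.2 : ℂ)) * (π * Complex.I) := by
        rw [Finset.sum_mul]
        refine Finset.sum_congr rfl fun q _ => ?_
        push_cast
        ring
      rw [h7, h6]
      ring
    rw [h5]
    exact Complex.exp_int_mul_two_pi_mul_I m
  rw [h1, mul_one]
  push_cast
  rfl

/-- a good angle structure gives a point of `W(T)` -/
theorem exists_mem_W {a : T.Tet → Fin 3 → ℝ} (ha : IsAngle T a) (hg : ∀ t, Good (a t)) :
    ∃ z ∈ T.W, (∀ q, (z q).im ≠ 0) ∧ T.vol z = ∑ t, V (a t) := by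
  refine ⟨fun q => vsh (a q.1) q.2, ⟨fun q => ⟨vsh_ne_zero (hg _) _, ?_⟩, fun t k => ?_,
    fun e => prod_edge_eq T ha hg e⟩, fun q => vsh_im (hg _) _, ?_⟩
  · intro h
    change vsh (a q.1) q.2 = 1 at h
    have h1 := vsh_step (ha.row q.1) (hg q.1) q.2
    rw [h, sub_self, mul_zero] at h1
    exact zero_ne_one h1
  · show vsh (a t) (k + 1) = 1 / (1 - vsh (a t) k)
    have h1 := vsh_step (ha.row t) (hg t) k
    have h2 : 1 - vsh (a t) k ≠ 0 := by
      intro h
      rw [h, mul_zero] at h1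
      exact zero_ne_one h1
    rw [eq_div_iff h2, h1]
  · unfold Triangulation.vol
    rw [Fintype.sum_prod_type]
    refine Finset.sum_congr rfl fun t _ => ?_
    rw [Fin.sum_univ_three]
    simp only [vsh_lob (hg t)]
    rfl

end Edge

end Pool.Agent.KS6_92.GN
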