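import Pool.Graph.R_seed8.H297R3.Luo.Homology

/-!
Specifications for the homological part: the cone map of a simplex.
-/

set_option autoImplicit false

namespace Pool.Agent.KS6_92.GN

open Pool.Agent.H297R3.Luo

/-- The affine map of the standard 3-simplex which sends the vertex `i` to the barycentre and
fixes the other vertices, as a function. -/
noncomputable def cfun (i : Fin 4) (x : Fin 4 → ℝ) : Fin 4 → ℝ :=
  fun k => (if k = i then 0 else x k) + x i / 4

theorem cfun_mem (i : Fin 4) {x : Fin 4 → ℝ} (hx : x ∈ stdSimplex ℝ (Fin 4)) :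
    cfun i x ∈ stdSimplex ℝ (Fin 4) := by
  obtain ⟨h1, h2⟩ := hx
  constructor
  · intro k
    unfold cfun
    have := h1 i
    split_ifs
    · linarith
    · have := h1 k
      linarith
  · rw [Fin.sum_univ_four] at h2 ⊢
    unfold cfun
    fin_cases i <;> simp <;> linarith

/-- The affine map of the standard 3-simplex which sends the vertex `i` to the barycentre and
fixes the other vertices. -/
noncomputable def cmap (i : Fin 4) : C(stdSimplex ℝ (Fin 4), stdSimplex ℝ (Fin 4)) where
  toFun x := ⟨cfun i x, cfun_mem i x.2⟩
  continuous_toFun := by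
    apply Continuous.subtype_mk
    refine continuous_pi fun k => ?_
    unfold cfun
    have h : ∀ j : Fin 4, Continuous fun x : stdSimplex ℝ (Fin 4) => (x : Fin 4 → ℝ) j :=
      fun j => (continuous_apply j).comp continuous_subtype_val
    split_ifs
    · exact continuous_const.add ((h i).div_const 4)
    · exact (h k).add ((h i).div_const 4)

/-- Every triangulation has a fundamental cycle of norm at most the number of tetrahedra. -/
def S_E1 : Prop := ∀ T : Triangulation, ∃ c, T.IsFundamental c ∧ norm1 c ≤ Fintype.card T.Tet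

/-- A simplex is homologous to the sum of the four pieces of its cone subdivision, up to
simplices in the faces. -/
def S_E2 : Prop := ∀ (X : Type) [TopologicalSpace X] (S : Set X)
  (g : C(stdSimplex ℝ (Fin 4), X)) (τ : Fin 4 → C(stdSimplex ℝ (Fin 4), X)),
  (∀ i, g.comp (cmap i) = τ i) →
  (∀ (i : Fin 4) (x : stdSimplex ℝ (Fin 4)), (∃ f, x f = 0) → τ i x ∈ S) →
  ∃ (b : Chain 4 X) (r : Chain 3 X), (∀ σ ∈ r.support, Set.range σ ⊆ S) ∧
    (Finsupp.single g 1 : Chain 3 X) = ∑ i, Finsupp.single (τ i) 1 + bdry 3 b + r

end Pool.Agent.KS6_92.GN
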